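import Pool.Agent.H85.LD.NDefs
import Pool.Agent.H70.SF.Def

/-!
SHARP RATE (MP_8f2e1c_an), piece 1 (STATIC) and planar notation.

`nr` is the euclidean norm of `ℂ × ℂ`; `Fc d b P Q` is the pair `(P, Q)` in the chart of centre `b` (scaled
variable, `H85/LD`), `F : ℂ → ℂ × ℂ` a general planar pair, `deriv F` its derivative (componentwise), `Jw F u` the
wedge of `F` and `F'`. `NSc F u S`: `S` is the natural scale of `F` at `u`.
`STAT` is the conclusion of the static stage for one centre: `F` new pair, `F0` old pair, `W` weight of the centre,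
`t` relative size of the noise, `k1` lower bound of `|F|`, `k2` lower bound of the Jacobian at the net points, `qn`
relative fineness of the net.
-/

set_option autoImplicit false

open Polynomial

namespace Pool.Agent.H73.ST

open Pool.Agent.H85.LD Pool.H70.SF

/-- euclidean norm on `ℂ × ℂ` -/
noncomputable def nr (a : ℂ × ℂ) : ℝ := √(n2 a)

/-- the pair in the chart at `b` -/
noncomputable def Fc (d : ℕ) (b : ℂ) (P Q : ℂ[X]) (u : ℂ) : ℂ × ℂ := (sc d b P u, sc d b Q u)

/-- wedge of the pair and its derivative (Jacobian) -/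
noncomputable def Jw (F : ℂ → ℂ × ℂ) (u : ℂ) : ℂ := wd (F u) (deriv F u)

/-- `S` is the natural scale of `F` at `u` -/
structure NSc (F : ℂ → ℂ × ℂ) (u : ℂ) (S : ℝ) : Prop where
  pos : 0 < S
  le_one : S ≤ 1
  var : ∀ v, ‖v - u‖ ≤ S → nr (F v - F u) ≤ nr (F u) / 2
  ext : S = 1 ∨ ∃ v, ‖v - u‖ ≤ S ∧ nr (F v - F u) = nr (F u) / 2

/-- conclusion of the static stage at one centre -/
structure STAT (F F0 : ℂ → ℂ × ℂ) (W t k1 k2 qn : ℝ) : Prop where
  low : ∀ u, ‖u‖ ≤ 2 → k1 * (nr (F0 u) + t * W) ≤ nr (F u)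
  net : ∀ u S, ‖u‖ ≤ 3 / 2 → NSc F u S → ∀ v, ‖v - u‖ ≤ S / 2 →
    ∃ n, ‖n - v‖ ≤ qn * S ∧ k2 * t * W * (nr (F n) + nr (deriv F n)) ≤ ‖Jw F n‖

end Pool.Agent.H73.ST
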