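import Pool.Agent.H73.ST.Def

/-!
SHARP RATE (MP_8f2e1c_an): the euclidean norm `nr` on `ℂ × ℂ`, Schwarz lemma and Cauchy estimate for pairs.

Proof. `nr a` is the norm of `WithLp.toLp 2 a`; Schwarz lemma of Mathlib for maps into a normed space.
-/

set_option autoImplicit false

open Metric

namespace Pool.Agent.H73.ST

open Pool.Agent.H85.LD Pool.H70.SF

theorem nr_eq (a : ℂ × ℂ) : nr a = ‖(WithLp.toLp 2 a : WithLp 2 (ℂ × ℂ))‖ := by
  rw [WithLp.prod_norm_eq_of_L2]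
  rfl

theorem nr_nonneg (a : ℂ × ℂ) : 0 ≤ nr a := Real.sqrt_nonneg _

theorem nr_sq (a : ℂ × ℂ) : nr a ^ 2 = ‖a.1‖ ^ 2 + ‖a.2‖ ^ 2 := by
  unfold nr n2
  exact Real.sq_sqrt (by positivity)

theorem nr_add_le (a b : ℂ × ℂ) : nr (a + b) ≤ nr a + nr b := by
  rw [nr_eq, nr_eq, nr_eq, WithLp.toLp_add]
  exact norm_add_le _ _

theorem nr_neg (a : ℂ × ℂ) : nr (-a) = nr a := by
  rw [nr_eq, nr_eq, WithLp.toLp_neg, norm_neg]

theorem nr_sub_comm (a b : ℂ × ℂ) : nr (a - b) = nr (b - a) := by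
  rw [← nr_neg, neg_sub]

theorem nr_sub_le (a b : ℂ × ℂ) : nr (a - b) ≤ nr a + nr b := by
  rw [sub_eq_add_neg]
  exact (nr_add_le _ _).trans (by rw [nr_neg])

theorem nr_le_of_sub (a b : ℂ × ℂ) : nr a ≤ nr b + nr (a - b) := by
  have := nr_add_le b (a - b)
  rwa [add_sub_cancel] at this

theorem nr_smul (c : ℂ) (a : ℂ × ℂ) : nr (c • a) = ‖c‖ * nr a := by
  rw [nr_eq, nr_eq, WithLp.toLp_smul, norm_smul]

theorem nr_zero : nr 0 = 0 := by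
  rw [nr_eq, WithLp.toLp_zero, norm_zero]

theorem nr_eq_zero {a : ℂ × ℂ} (h : nr a = 0) : a = 0 := by
  have h1 := nr_sq a
  rw [h] at h1
  have h2 : ‖a.1‖ = 0 := by nlinarith [sq_nonneg ‖a.1‖, sq_nonneg ‖a.2‖, norm_nonneg a.1]
  have h3 : ‖a.2‖ = 0 := by nlinarith [sq_nonneg ‖a.1‖, sq_nonneg ‖a.2‖, norm_nonneg a.2]
  exact Prod.ext (norm_eq_zero.1 h2) (norm_eq_zero.1 h3)

theorem fst_le_nr (a : ℂ × ℂ) : ‖a.1‖ ≤ nr a := by
  apply le_of_sq_le_sq _ (nr_nonneg a)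
  rw [nr_sq]
  nlinarith [sq_nonneg ‖a.2‖]

theorem snd_le_nr (a : ℂ × ℂ) : ‖a.2‖ ≤ nr a := by
  apply le_of_sq_le_sq _ (nr_nonneg a)
  rw [nr_sq]
  nlinarith [sq_nonneg ‖a.1‖]

theorem nr_le_add (a : ℂ × ℂ) : nr a ≤ ‖a.1‖ + ‖a.2‖ := by
  apply le_of_sq_le_sq _ (by positivity)
  rw [nr_sq]
  nlinarith [norm_nonneg a.1, norm_nonneg a.2, mul_nonneg (norm_nonneg a.1) (norm_nonneg a.2)]

/-- both components at most `B`: the norm is at most `3 B / 2` -/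
theorem nr_le_of_comp {a : ℂ × ℂ} {B : ℝ} (h1 : ‖a.1‖ ≤ B) (h2 : ‖a.2‖ ≤ B) :
    nr a ≤ 3 / 2 * B := by
  have hB : 0 ≤ B := (norm_nonneg _).trans h1
  apply le_of_sq_le_sq _ (by positivity)
  rw [nr_sq]
  nlinarith [norm_nonneg a.1, norm_nonneg a.2]

theorem wd_le (a b : ℂ × ℂ) : ‖wd a b‖ ≤ nr a * nr b := by
  apply le_of_sq_le_sq _ (mul_nonneg (nr_nonneg a) (nr_nonneg b))
  rw [mul_pow, nr_sq, nr_sq]
  have h1 : ‖wd a b‖ ≤ ‖a.1‖ * ‖b.2‖ + ‖a.2‖ * ‖b.1‖ := by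
    unfold wd
    refine (norm_sub_le _ _).trans ?_
    rw [norm_mul, norm_mul]
  have h2 : ‖wd a b‖ ^ 2 ≤ (‖a.1‖ * ‖b.2‖ + ‖a.2‖ * ‖b.1‖) ^ 2 :=
    pow_le_pow_left₀ (norm_nonneg _) h1 2
  nlinarith [sq_nonneg (‖a.1‖ * ‖b.1‖ - ‖a.2‖ * ‖b.2‖)]

/-- Schwarz lemma for pairs -/
theorem schw {F : ℂ → ℂ × ℂ} {u : ℂ} {r B : ℝ} (hF : DifferentiableOn ℂ F (ball u r))
    (hB : ∀ v, ‖v - u‖ < r → nr (F v - F u) ≤ B) {v : ℂ} (hv : ‖v - u‖ < r) :
    nr (F v - F u) ≤ B / r * ‖v - u‖ := by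
  let L := (WithLp.prodContinuousLinearEquiv 2 ℂ ℂ ℂ).symm
  have hd : DifferentiableOn ℂ (fun x => L (F x)) (ball u r) :=
    L.differentiable.comp_differentiableOn hF
  have hm : Set.MapsTo (fun x => L (F x)) (ball u r) (closedBall (L (F u)) B) := by
    intro x hx
    rw [mem_closedBall, dist_eq_norm, ← map_sub]
    have h1 := hB x (by simpa [dist_eq_norm] using hx)
    rw [nr_eq] at h1
    exact h1
  have h1 := Complex.dist_le_div_mul_dist_of_mapsTo_ball hd hm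
    (by simpa [dist_eq_norm] using hv : v ∈ ball u r)
  rw [dist_eq_norm, dist_eq_norm, ← map_sub] at h1
  rw [nr_eq]
  exact h1

/-- Schwarz lemma for pairs, closed disc -/
theorem schw' {F : ℂ → ℂ × ℂ} {u : ℂ} {r B : ℝ} (hr : 0 < r) (hF : Differentiable ℂ F)
    (hB : ∀ v, ‖v - u‖ ≤ r → nr (F v - F u) ≤ B) {v : ℂ} (hv : ‖v - u‖ ≤ r) :
    nr (F v - F u) ≤ B / r * ‖v - u‖ := by
  rcases hv.lt_or_eq with h | h
  · exact schw hF.differentiableOn (fun x hx => hB x hx.le) h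
  · rw [h, div_mul_cancel₀ _ hr.ne']
    exact hB v hv

/-- the derivative of a pair, componentwise -/
theorem deriv_pair {F : ℂ → ℂ × ℂ} {u : ℂ} (hF : DifferentiableAt ℂ F u) :
    deriv F u = (deriv (fun x => (F x).1) u, deriv (fun x => (F x).2) u) := by
  have h1 : HasDerivAt (fun x => (F x).1) (deriv F u).1 u :=
    hF.hasDerivAt.fst
  have h2 : HasDerivAt (fun x => (F x).2) (deriv F u).2 u :=
    hF.hasDerivAt.snd
  rw [h1.deriv, h2.deriv]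

/-- Cauchy estimate for pairs -/
theorem cauP {F : ℂ → ℂ × ℂ} {u : ℂ} {r B : ℝ} (hr : 0 < r) (hF : Differentiable ℂ F)
    (hB : ∀ v, ‖v - u‖ ≤ r → nr (F v) ≤ B) : nr (deriv F u) ≤ B / r := by
  let L := (WithLp.prodContinuousLinearEquiv 2 ℂ ℂ ℂ).symm
  have hd : Differentiable ℂ (fun x => L (F x)) := L.differentiable.comp hF
  have h1 := Complex.norm_deriv_le_of_forall_mem_sphere_norm_le hr
    (f := fun x => L (F x)) (c := u) (C := B) hd.diffContOnCl (by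
      intro z hz
      have h2 := hB z (by rw [mem_sphere, dist_eq_norm] at hz; exact hz.le)
      rw [nr_eq] at h2
      exact h2)
  have h2 : deriv (fun x => L (F x)) u = L (deriv F u) :=
    (L.hasFDerivAt.comp_hasDerivAt u (hF u).hasDerivAt).deriv
  rw [h2] at h1
  rw [nr_eq]
  exact h1

end Pool.Agent.H73.ST
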