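import Mathlib

/-!
SHARP RATE (MP_8f2e1c_an), planar lemma FAC: factorisation of the zeros in `|u| ≤ 3` by Blaschke factors of the
disc of radius `4`, with the number of zeros.

Proof. One step: if `g z = 0`, `|z| ≤ 3`, let `g1 u = dslope g z u * (16 - conj z u) / 4`. On `|u| = 4` one has
`|16 - conj z u| = 4 |u - z|`, so `|g1| = |g| ≤ M`; and `4 |u0 - z| ≤ (24/25) |16 - conj z u0|`.
-/

set_option autoImplicit false

open ComplexConjugate Metric

namespace Pool.Agent.H73.ST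

private theorem psh (z u : ℂ) (hz : ‖z‖ ≤ 3) (hu : ‖u‖ ≤ 3) :
    ‖4 * (u - z)‖ ≤ 24 / 25 * ‖16 - conj z * u‖ := by
  have h1 : ‖16 - conj z * u‖ ^ 2 - ‖4 * (u - z)‖ ^ 2 = (16 - ‖z‖ ^ 2) * (16 - ‖u‖ ^ 2) := by
    rw [← Complex.normSq_eq_norm_sq, ← Complex.normSq_eq_norm_sq, ← Complex.normSq_eq_norm_sq,
      ← Complex.normSq_eq_norm_sq]
    simp [Complex.normSq_apply]
    ring
  have h2 : ‖16 - conj z * u‖ ≤ 25 := by
    calc ‖16 - conj z * u‖ ≤ ‖(16 : ℂ)‖ + ‖conj z * u‖ := norm_sub_le _ _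
      _ = 16 + ‖z‖ * ‖u‖ := by rw [norm_mul, Complex.norm_conj]; norm_num
      _ ≤ 16 + 3 * 3 := by gcongr
      _ = 25 := by norm_num
  have hz2 : ‖z‖ ^ 2 ≤ 9 := by nlinarith [norm_nonneg z]
  have hu2 : ‖u‖ ^ 2 ≤ 9 := by nlinarith [norm_nonneg u]
  have h3 : 49 ≤ (16 - ‖z‖ ^ 2) * (16 - ‖u‖ ^ 2) := by nlinarith
  have h4 : ‖16 - conj z * u‖ ^ 2 ≤ 625 := by nlinarith [norm_nonneg (16 - conj z * u)]
  have h5 : ‖4 * (u - z)‖ ^ 2 ≤ (24 / 25 * ‖16 - conj z * u‖) ^ 2 := by nlinarith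
  exact le_of_sq_le_sq h5 (by positivity)

private theorem step (g : ℂ → ℂ) (hg : Differentiable ℂ g) (M : ℝ)
    (hM : ∀ u, ‖u‖ ≤ 4 → ‖g u‖ ≤ M) (z : ℂ) (hz : ‖z‖ ≤ 3) (h0 : g z = 0) :
    ∃ g1 : ℂ → ℂ, Differentiable ℂ g1 ∧ (∀ u, ‖u‖ ≤ 4 → ‖g1 u‖ ≤ M) ∧
      (∀ u, g u * (16 - conj z * u) = g1 u * (4 * (u - z))) ∧
      ∀ u, ‖u‖ ≤ 3 → 25 / 24 * ‖g u‖ ≤ ‖g1 u‖ := by
  have hds : Differentiable ℂ (dslope g z) := by
    have := (Complex.differentiableOn_dslope (f := g) (c := z) (s := Set.univ)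
      Filter.univ_mem).2 hg.differentiableOn
    exact differentiableOn_univ.1 this
  have hid : ∀ u, (u - z) * dslope g z u = g u := by
    intro u
    have := sub_smul_dslope g z u
    rw [smul_eq_mul, h0, sub_zero] at this
    exact this
  have heq : ∀ u, g u * (16 - conj z * u)
      = (dslope g z u * (16 - conj z * u) / 4) * (4 * (u - z)) := by
    intro u
    rw [← hid u]
    ring
  have hd1 : Differentiable ℂ (fun u => dslope g z u * (16 - conj z * u) / 4) := by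
    fun_prop
  refine ⟨fun u => dslope g z u * (16 - conj z * u) / 4, hd1, ?_, heq, ?_⟩
  · intro u hu
    have hb : ∀ v ∈ frontier (ball (0 : ℂ) 4), ‖dslope g z v * (16 - conj z * v) / 4‖ ≤ M := by
      intro v hv
      rw [frontier_ball (0 : ℂ) (by norm_num : (4 : ℝ) ≠ 0), mem_sphere_zero_iff_norm] at hv
      have h1 := congrArg norm (heq v)
      rw [norm_mul, norm_mul (dslope g z v * (16 - conj z * v) / 4)] at h1
      have h2 : ‖16 - conj z * v‖ = ‖4 * (v - z)‖ := by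
        have e1 : (16 : ℂ) - conj z * v = v * conj (v - z) := by
          have : v * conj v = 16 := by
            rw [Complex.mul_conj, Complex.normSq_eq_norm_sq, hv]
            norm_num
          rw [map_sub, mul_sub, this]
          ring
        rw [e1, norm_mul, Complex.norm_conj, hv, norm_mul]
        norm_num
      have h3 : 0 < ‖4 * (v - z)‖ := by
        rw [norm_pos_iff]
        intro h
        have : v = z := by
          have := (mul_eq_zero.1 h).resolve_left (by norm_num)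
          exact sub_eq_zero.1 this
        rw [this] at hv
        linarith
      rw [h2] at h1
      have h4 := mul_right_cancel₀ h3.ne' h1
      rw [← h4]
      exact hM v hv.le
    have h5 : u ∈ closure (ball (0 : ℂ) 4) := by
      rw [closure_ball (0 : ℂ) (by norm_num : (4 : ℝ) ≠ 0), mem_closedBall_zero_iff]
      exact hu
    exact Complex.norm_le_of_forall_mem_frontier_norm_le isBounded_ball hd1.diffContOnCl hb h5
  · intro u hu
    have h1 := congrArg norm (heq u)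
    rw [norm_mul, norm_mul (dslope g z u * (16 - conj z * u) / 4)] at h1
    have h2 := psh z u hz hu
    have h3 : 0 < ‖16 - conj z * u‖ := by
      rw [norm_pos_iff]
      intro h
      have h4 : ‖conj z * u‖ = 16 := by
        rw [← sub_eq_zero.1 h]
        norm_num
      rw [norm_mul, Complex.norm_conj] at h4
      nlinarith [norm_nonneg z, norm_nonneg u]
    have h4 : ‖g u‖ * ‖16 - conj z * u‖
        ≤ (24 / 25 * ‖dslope g z u * (16 - conj z * u) / 4‖) * ‖16 - conj z * u‖ := by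
      rw [h1]
      calc _ ≤ ‖dslope g z u * (16 - conj z * u) / 4‖ * (24 / 25 * ‖16 - conj z * u‖) :=
            mul_le_mul_of_nonneg_left h2 (norm_nonneg _)
        _ = _ := by ring
    have h5 := le_of_mul_le_mul_right h4 h3
    linarith

/-- factorisation of the zeros in `|u| ≤ 3` -/
theorem fac (f : ℂ → ℂ) (hf : Differentiable ℂ f) (M τ : ℝ) (hM : ∀ u, ‖u‖ ≤ 4 → ‖f u‖ ≤ M)
    (u0 : ℂ) (hu0 : ‖u0‖ ≤ 3) (hτ : 0 < τ) (hτ1 : τ ≤ ‖f u0‖) :
    ∃ (Z : List ℂ) (g : ℂ → ℂ), Differentiable ℂ g ∧ (∀ z ∈ Z, ‖z‖ ≤ 3) ∧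
      (∀ u, ‖u‖ ≤ 3 → g u ≠ 0) ∧ (∀ u, ‖u‖ ≤ 4 → ‖g u‖ ≤ M) ∧ ‖f u0‖ ≤ ‖g u0‖ ∧
      (Z.length : ℝ) ≤ 25 * Real.log (M / τ) ∧
      ∀ u, f u * (Z.map (fun z => 16 - conj z * u)).prod
        = g u * (Z.map (fun z => 4 * (u - z))).prod := by
  have hM0 : 0 < M := hτ.trans_le (hτ1.trans (hM u0 (by linarith)))
  have key : ∀ m : ℕ, ∀ f : ℂ → ℂ, Differentiable ℂ f → (∀ u, ‖u‖ ≤ 4 → ‖f u‖ ≤ M) →
      M * (24 / 25) ^ m ≤ ‖f u0‖ →
      ∃ (Z : List ℂ) (g : ℂ → ℂ), Differentiable ℂ g ∧ (∀ z ∈ Z, ‖z‖ ≤ 3) ∧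
      (∀ u, ‖u‖ ≤ 3 → g u ≠ 0) ∧ (∀ u, ‖u‖ ≤ 4 → ‖g u‖ ≤ M) ∧
      (25 / 24) ^ Z.length * ‖f u0‖ ≤ ‖g u0‖ ∧
      ∀ u, f u * (Z.map (fun z => 16 - conj z * u)).prod
        = g u * (Z.map (fun z => 4 * (u - z))).prod := by
    intro m
    induction m with
    | zero =>
      intro f hf hM hm
      by_cases hz : ∀ u, ‖u‖ ≤ 3 → f u ≠ 0
      · exact ⟨[], f, hf, by simp, hz, hM, by simp, by simp⟩
      · push Not at hz
        obtain ⟨z, hz3, hz0⟩ := hz
        obtain ⟨g1, hg1, hg1M, _, hg1u⟩ := step f hf M hM z hz3 hz0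
        have h1 := hg1u u0 hu0
        have h2 := hg1M u0 (by linarith)
        rw [pow_zero, mul_one] at hm
        linarith
    | succ m ih =>
      intro f hf hM hm
      by_cases hz : ∀ u, ‖u‖ ≤ 3 → f u ≠ 0
      · exact ⟨[], f, hf, by simp, hz, hM, by simp, by simp⟩
      · push Not at hz
        obtain ⟨z, hz3, hz0⟩ := hz
        obtain ⟨g1, hg1, hg1M, hg1e, hg1u⟩ := step f hf M hM z hz3 hz0
        have h1 := hg1u u0 hu0
        have h2 : M * (24 / 25) ^ m ≤ ‖g1 u0‖ := by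
          refine le_trans ?_ h1
          rw [pow_succ] at hm
          linarith
        obtain ⟨Z, g, hg, hZ, hgz, hgM, hgu, hge⟩ := ih g1 hg1 hg1M h2
        refine ⟨z :: Z, g, hg, ?_, hgz, hgM, ?_, ?_⟩
        · intro y hy
          rcases List.mem_cons.1 hy with rfl | hy
          · exact hz3
          · exact hZ y hy
        · rw [List.length_cons, pow_succ]
          refine le_trans ?_ hgu
          rw [mul_assoc]
          exact mul_le_mul_of_nonneg_left h1 (by positivity)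
        · intro u
          rw [List.map_cons, List.prod_cons, List.map_cons, List.prod_cons, ← mul_assoc, hg1e u,
            mul_assoc, mul_comm (4 * (u - z)), ← mul_assoc, hge u]
          ring
  have hlog : 1 / 25 ≤ Real.log (25 / 24) := by
    have := Real.one_sub_inv_le_log_of_pos (by norm_num : (0 : ℝ) < 25 / 24)
    refine le_trans ?_ this
    norm_num
  obtain ⟨m, hm⟩ : ∃ m : ℕ, M * (24 / 25) ^ m ≤ τ := by
    obtain ⟨m, hm⟩ := exists_pow_lt_of_lt_one (show 0 < τ / M by positivity)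
      (by norm_num : (24 / 25 : ℝ) < 1)
    refine ⟨m, ?_⟩
    rw [lt_div_iff₀ hM0] at hm
    linarith
  obtain ⟨Z, g, hg, hZ, hgz, hgM, hgu, hge⟩ := key m f hf hM (hm.trans hτ1)
  refine ⟨Z, g, hg, hZ, hgz, hgM, ?_, ?_, hge⟩
  · refine le_trans ?_ hgu
    have : (1 : ℝ) ≤ (25 / 24) ^ Z.length := one_le_pow₀ (by norm_num)
    have h1 := mul_le_mul_of_nonneg_right this (norm_nonneg (f u0))
    rwa [one_mul] at h1
  · have h1 : (25 / 24) ^ Z.length * τ ≤ M :=
      (mul_le_mul_of_nonneg_left hτ1 (by positivity)).trans (hgu.trans (hgM u0 (by linarith)))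
    have h2 : (25 / 24 : ℝ) ^ Z.length ≤ M / τ := by rwa [le_div_iff₀ hτ]
    have h3 := Real.log_le_log (by positivity) h2
    rw [Real.log_pow] at h3
    have h4 : (Z.length : ℝ) * (1 / 25) ≤ Z.length * Real.log (25 / 24) :=
      mul_le_mul_of_nonneg_left hlog (Nat.cast_nonneg _)
    linarith

end Pool.Agent.H73.ST
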