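import Pool.Agent.H73.ST.Bas
import Pool.Agent.H85.LD.Loc

/-!
SHARP RATE (MP_8f2e1c_an), piece 1, GRID: counting letters.

Letters: pairs `(p0, p1)`, `p0, p1 ∈ G2 N = box N ×ˢ box N`; `Vt e N p = (e/N) (gz p.1, gz p.2)`.
`cnt1`: the letters with `|α + V p0 + n V p1| ≤ ρ` are at most `(2 ρ/e)^4` of all (fixed `p1`, both components of
`p0` in a disc of radius `ρ`). `cnt2`: `|a ∧ c| < κ (|a| + |c|)` with `a = α0 + V p0`, `c = α1 + V p1`: if `|c| ≤ |a|`,
fix `p0` and the component of `p1` with the same index as the larger component of `a`; the other one is in a disc of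
radius `3 κ`. At most `2 (6 κ/e)^2` of all.
-/

set_option autoImplicit false

open Finset hiding box

namespace Pool.Agent.H73.ST

open Pool.Agent.H85.LD Pool.H70.SF

/-- pairs of Gaussian integers in the box -/
noncomputable def G2 (N : ℕ) : Finset ((ℤ × ℤ) × (ℤ × ℤ)) := box N ×ˢ box N

/-- the vector of a pair of Gaussian integers -/
noncomputable def Vt (e : ℝ) (N : ℕ) (p : (ℤ × ℤ) × (ℤ × ℤ)) : ℂ × ℂ :=
  (((e / (N : ℕ) : ℝ) : ℂ) * gz p.1, ((e / (N : ℕ) : ℝ) : ℂ) * gz p.2)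

open Classical in
theorem prod_cnt {α β : Type*} (A : Finset α) (B : Finset β) (R : α → β → Prop) (m : ℝ)
    (h : ∀ q ∈ B, ((A.filter (fun p => R p q)).card : ℝ) ≤ m) :
    (((A ×ˢ B).filter (fun x => R x.1 x.2)).card : ℝ) ≤ m * B.card := by
  rw [card_filter, sum_product_right]
  push_cast
  have h1 : ∀ q ∈ B, (∑ p ∈ A, (if R p q then (1 : ℝ) else 0)) ≤ m := by
    intro q hq
    have := h q hq
    rw [card_filter] at this
    push_cast at this
    exact this
  refine (sum_le_sum h1).trans ?_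
  rw [sum_const, nsmul_eq_mul, mul_comm]

open Classical in
theorem prod_cnt' {α β : Type*} (A : Finset α) (B : Finset β) (R : α → β → Prop) (m : ℝ)
    (h : ∀ p ∈ A, ((B.filter (fun q => R p q)).card : ℝ) ≤ m) :
    (((A ×ˢ B).filter (fun x => R x.1 x.2)).card : ℝ) ≤ m * A.card := by
  rw [card_filter, sum_product]
  push_cast
  have h1 : ∀ p ∈ A, (∑ q ∈ B, (if R p q then (1 : ℝ) else 0)) ≤ m := by
    intro q hq
    have := h q hq
    rw [card_filter] at this
    push_cast at this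
    exact this
  refine (sum_le_sum h1).trans ?_
  rw [sum_const, nsmul_eq_mul, mul_comm]

open Classical in
/-- letters of one index in a ball -/
theorem cnt_ball (e ρ : ℝ) (N : ℕ) (he : 0 < e) (hρ : 0 < ρ) (hN : 1 ≤ N) (h : e ≤ 2 * ρ * N)
    (α : ℂ × ℂ) :
    (((G2 N).filter (fun p => nr (α + Vt e N p) ≤ ρ)).card : ℝ) ≤
      (2 * ρ / e) ^ 4 * (G2 N).card := by
  have h1 : (G2 N).filter (fun p => nr (α + Vt e N p) ≤ ρ) ⊆
      ((box N).filter (fun a => ‖((e / (N : ℕ) : ℝ) : ℂ) * gz a - (-α.1)‖ ≤ ρ)) ×ˢ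
      ((box N).filter (fun a => ‖((e / (N : ℕ) : ℝ) : ℂ) * gz a - (-α.2)‖ ≤ ρ)) := by
    intro p hp
    rw [mem_filter] at hp
    unfold G2 at hp
    rw [mem_product] at hp
    rw [mem_product, mem_filter, mem_filter]
    have e1 := (fst_le_nr _).trans hp.2
    have e2 := (snd_le_nr _).trans hp.2
    refine ⟨⟨hp.1.1, ?_⟩, ⟨hp.1.2, ?_⟩⟩
    · rw [sub_neg_eq_add, add_comm]
      exact e1
    · rw [sub_neg_eq_add, add_comm]
      exact e2
  have h2 := box_disc e ρ N he hρ hN h (box N) (-α.1)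
  have h3 := box_disc e ρ N he hρ hN h (box N) (-α.2)
  have h4 : (((G2 N).filter (fun p => nr (α + Vt e N p) ≤ ρ)).card : ℝ) ≤
      ((box N).filter (fun a => ‖((e / (N : ℕ) : ℝ) : ℂ) * gz a - (-α.1)‖ ≤ ρ)).card *
      ((box N).filter (fun a => ‖((e / (N : ℕ) : ℝ) : ℂ) * gz a - (-α.2)‖ ≤ ρ)).card := by
    have := card_le_card h1
    rw [card_product] at this
    exact_mod_cast this
  refine h4.trans ?_
  have h5 : ((G2 N).card : ℝ) = (box N).card * (box N).card := by
    unfold G2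
    rw [card_product]
    push_cast
    ring
  rw [h5]
  refine (mul_le_mul h2 h3 (Nat.cast_nonneg _) (by positivity)).trans (le_of_eq ?_)
  ring

open Classical in
/-- letters near a complex line -/
theorem cnt_line (e κ : ℝ) (N : ℕ) (he : 0 < e) (hκ : 0 < κ) (hN : 1 ≤ N) (h : e ≤ 6 * κ * N)
    (a α : ℂ × ℂ) (ha : 0 < nr a) :
    (((G2 N).filter (fun p => ‖wd a (α + Vt e N p)‖ ≤ 2 * κ * nr a)).card : ℝ) ≤
      (6 * κ / e) ^ 2 * (G2 N).card := by
  have hc : ∀ c : ℂ, (((box N).filter (fun x => ‖((e / (N : ℕ) : ℝ) : ℂ) * gz x - c‖ ≤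
      3 * κ)).card : ℝ) ≤ (6 * κ / e) ^ 2 * (box N).card := by
    intro c
    have := box_disc e (3 * κ) N he (by positivity) hN (by linarith) (box N) c
    refine this.trans (le_of_eq ?_)
    ring
  have hG : ((G2 N).card : ℝ) = (box N).card * (box N).card := by
    unfold G2
    rw [card_product]
    push_cast
    ring
  rcases le_total ‖a.1‖ ‖a.2‖ with hle | hle
  · -- the second component is the larger
    have ha2 : nr a ≤ 3 / 2 * ‖a.2‖ := nr_le_of_comp hle le_rfl
    have ha20 : 0 < ‖a.2‖ := by linarith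
    have ha2' : a.2 ≠ 0 := norm_pos_iff.1 ha20
    have h1 := prod_cnt (box N) (box N)
      (fun x y => ‖wd a (α + Vt e N (x, y))‖ ≤ 2 * κ * nr a) ((6 * κ / e) ^ 2 * (box N).card)
      (by
        intro y _
        refine le_trans ?_ (hc (a.1 * (α.2 + ((e / (N : ℕ) : ℝ) : ℂ) * gz y) / a.2 - α.1))
        have hsub : (box N).filter (fun x => ‖wd a (α + Vt e N (x, y))‖ ≤ 2 * κ * nr a) ⊆
            (box N).filter (fun x => ‖((e / (N : ℕ) : ℝ) : ℂ) * gz x -
              (a.1 * (α.2 + ((e / (N : ℕ) : ℝ) : ℂ) * gz y) / a.2 - α.1)‖ ≤ 3 * κ) := by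
          intro x hx
          rw [mem_filter] at hx ⊢
          refine ⟨hx.1, ?_⟩
          have e1 : ((e / (N : ℕ) : ℝ) : ℂ) * gz x -
              (a.1 * (α.2 + ((e / (N : ℕ) : ℝ) : ℂ) * gz y) / a.2 - α.1) =
              -(wd a (α + Vt e N (x, y)) / a.2) := by
            unfold wd Vt
            rw [Prod.snd_add, Prod.fst_add]
            field_simp
            ring
          rw [e1, norm_neg, norm_div, div_le_iff₀ ha20]
          refine hx.2.trans ?_
          nlinarith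
        exact_mod_cast card_le_card hsub)
    rw [hG]
    unfold G2
    refine h1.trans (le_of_eq ?_)
    ring
  · have ha2 : nr a ≤ 3 / 2 * ‖a.1‖ := nr_le_of_comp le_rfl hle
    have ha20 : 0 < ‖a.1‖ := by linarith
    have ha2' : a.1 ≠ 0 := norm_pos_iff.1 ha20
    have h1 := prod_cnt' (box N) (box N)
      (fun x y => ‖wd a (α + Vt e N (x, y))‖ ≤ 2 * κ * nr a) ((6 * κ / e) ^ 2 * (box N).card)
      (by
        intro x _
        refine le_trans ?_ (hc (a.2 * (α.1 + ((e / (N : ℕ) : ℝ) : ℂ) * gz x) / a.1 - α.2))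
        have hsub : (box N).filter (fun y => ‖wd a (α + Vt e N (x, y))‖ ≤ 2 * κ * nr a) ⊆
            (box N).filter (fun y => ‖((e / (N : ℕ) : ℝ) : ℂ) * gz y -
              (a.2 * (α.1 + ((e / (N : ℕ) : ℝ) : ℂ) * gz x) / a.1 - α.2)‖ ≤ 3 * κ) := by
          intro y hx
          rw [mem_filter] at hx ⊢
          refine ⟨hx.1, ?_⟩
          have e1 : ((e / (N : ℕ) : ℝ) : ℂ) * gz y -
              (a.2 * (α.1 + ((e / (N : ℕ) : ℝ) : ℂ) * gz x) / a.1 - α.2) =
              wd a (α + Vt e N (x, y)) / a.1 := by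
            unfold wd Vt
            rw [Prod.snd_add, Prod.fst_add]
            field_simp
            ring
          rw [e1, norm_div, div_le_iff₀ ha20]
          refine hx.2.trans ?_
          nlinarith
        exact_mod_cast card_le_card hsub)
    rw [hG]
    unfold G2
    refine h1.trans (le_of_eq ?_)
    ring

open Classical in
/-- event E1: the value is small -/
theorem cnt1 (e ρ : ℝ) (N : ℕ) (he : 0 < e) (hρ : 0 < ρ) (hN : 1 ≤ N) (h : e ≤ 2 * ρ * N)
    (α : ℂ × ℂ) (n : ℂ) :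
    (((G2 N ×ˢ G2 N).filter (fun x => nr (α + Vt e N x.1 + n • Vt e N x.2) ≤ ρ)).card : ℝ) ≤
      (2 * ρ / e) ^ 4 * (G2 N ×ˢ G2 N).card := by
  have h1 := prod_cnt (G2 N) (G2 N) (fun x y => nr (α + Vt e N x + n • Vt e N y) ≤ ρ)
    ((2 * ρ / e) ^ 4 * (G2 N).card) (by
      intro y _
      have h2 := cnt_ball e ρ N he hρ hN h (α + n • Vt e N y)
      have h3 : (G2 N).filter (fun p => nr (α + Vt e N p + n • Vt e N y) ≤ ρ) =
          (G2 N).filter (fun p => nr (α + n • Vt e N y + Vt e N p) ≤ ρ) := by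
        apply filter_congr
        intro p _
        rw [add_right_comm]
      rw [h3]
      exact h2)
  refine h1.trans (le_of_eq ?_)
  rw [card_product]
  push_cast
  ring

theorem wd_swap (a b : ℂ × ℂ) : wd a b = -wd b a := by
  unfold wd
  ring

open Classical in
/-- event E2: the Jacobian is small -/
theorem cnt2 (e κ : ℝ) (N : ℕ) (he : 0 < e) (hκ : 0 < κ) (hN : 1 ≤ N) (h : e ≤ 6 * κ * N)
    (α0 α1 : ℂ × ℂ) :
    (((G2 N ×ˢ G2 N).filter (fun x => ‖wd (α0 + Vt e N x.1) (α1 + Vt e N x.2)‖ <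
      κ * (nr (α0 + Vt e N x.1) + nr (α1 + Vt e N x.2)))).card : ℝ) ≤
      2 * (6 * κ / e) ^ 2 * (G2 N ×ˢ G2 N).card := by
  have h1 := prod_cnt' (G2 N) (G2 N) (fun x y => 0 < nr (α0 + Vt e N x) ∧
      ‖wd (α0 + Vt e N x) (α1 + Vt e N y)‖ ≤ 2 * κ * nr (α0 + Vt e N x))
    ((6 * κ / e) ^ 2 * (G2 N).card) (by
      intro x _
      by_cases hx : 0 < nr (α0 + Vt e N x)
      · refine le_trans ?_ (cnt_line e κ N he hκ hN h (α0 + Vt e N x) α1 hx)
        have : (G2 N).filter (fun y => 0 < nr (α0 + Vt e N x) ∧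
            ‖wd (α0 + Vt e N x) (α1 + Vt e N y)‖ ≤ 2 * κ * nr (α0 + Vt e N x)) ⊆
            (G2 N).filter (fun y => ‖wd (α0 + Vt e N x) (α1 + Vt e N y)‖ ≤
              2 * κ * nr (α0 + Vt e N x)) := by
          intro y hy
          rw [mem_filter] at hy ⊢
          exact ⟨hy.1, hy.2.2⟩
        exact_mod_cast card_le_card this
      · have h9 : (G2 N).filter (fun y => 0 < nr (α0 + Vt e N x) ∧
            ‖wd (α0 + Vt e N x) (α1 + Vt e N y)‖ ≤ 2 * κ * nr (α0 + Vt e N x)) ⊆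
            (∅ : Finset ((ℤ × ℤ) × (ℤ × ℤ))) := by
          intro y hy
          rw [mem_filter] at hy
          exact absurd hy.2.1 hx
        have h10 := card_le_card h9
        rw [card_empty] at h10
        refine le_trans (b := (0 : ℝ)) ?_ (by positivity)
        exact_mod_cast h10)
  have h2 := prod_cnt (G2 N) (G2 N) (fun x y => 0 < nr (α1 + Vt e N y) ∧
      ‖wd (α1 + Vt e N y) (α0 + Vt e N x)‖ ≤ 2 * κ * nr (α1 + Vt e N y))
    ((6 * κ / e) ^ 2 * (G2 N).card) (by
      intro y _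
      by_cases hy : 0 < nr (α1 + Vt e N y)
      · refine le_trans ?_ (cnt_line e κ N he hκ hN h (α1 + Vt e N y) α0 hy)
        have : (G2 N).filter (fun x => 0 < nr (α1 + Vt e N y) ∧
            ‖wd (α1 + Vt e N y) (α0 + Vt e N x)‖ ≤ 2 * κ * nr (α1 + Vt e N y)) ⊆
            (G2 N).filter (fun x => ‖wd (α1 + Vt e N y) (α0 + Vt e N x)‖ ≤
              2 * κ * nr (α1 + Vt e N y)) := by
          intro x hx
          rw [mem_filter] at hx ⊢
          exact ⟨hx.1, hx.2.2⟩
        exact_mod_cast card_le_card this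
      · have h9 : (G2 N).filter (fun x => 0 < nr (α1 + Vt e N y) ∧
            ‖wd (α1 + Vt e N y) (α0 + Vt e N x)‖ ≤ 2 * κ * nr (α1 + Vt e N y)) ⊆
            (∅ : Finset ((ℤ × ℤ) × (ℤ × ℤ))) := by
          intro x hx
          rw [mem_filter] at hx
          exact absurd hx.2.1 hy
        have h10 := card_le_card h9
        rw [card_empty] at h10
        refine le_trans (b := (0 : ℝ)) ?_ (by positivity)
        exact_mod_cast h10)
  have h3 : (G2 N ×ˢ G2 N).filter (fun x => ‖wd (α0 + Vt e N x.1) (α1 + Vt e N x.2)‖ <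
      κ * (nr (α0 + Vt e N x.1) + nr (α1 + Vt e N x.2))) ⊆
      (G2 N ×ˢ G2 N).filter (fun x => 0 < nr (α0 + Vt e N x.1) ∧
        ‖wd (α0 + Vt e N x.1) (α1 + Vt e N x.2)‖ ≤ 2 * κ * nr (α0 + Vt e N x.1)) ∪
      (G2 N ×ˢ G2 N).filter (fun x => 0 < nr (α1 + Vt e N x.2) ∧
        ‖wd (α1 + Vt e N x.2) (α0 + Vt e N x.1)‖ ≤ 2 * κ * nr (α1 + Vt e N x.2)) := by
    intro x hx
    rw [mem_filter] at hx
    rw [mem_union, mem_filter, mem_filter]
    obtain ⟨hx1, hx2⟩ := hx
    have hpos : 0 < κ * (nr (α0 + Vt e N x.1) + nr (α1 + Vt e N x.2)) :=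
      (norm_nonneg _).trans_lt hx2
    have hpos2 := pos_of_mul_pos_right hpos hκ.le
    rcases le_total (nr (α0 + Vt e N x.1)) (nr (α1 + Vt e N x.2)) with hle | hle
    · right
      refine ⟨hx1, by linarith, ?_⟩
      rw [wd_swap, norm_neg]
      nlinarith
    · left
      refine ⟨hx1, by linarith, ?_⟩
      nlinarith
  have h4 := card_le_card h3
  have h5 := h4.trans (card_union_le _ _)
  have h6 : (((G2 N ×ˢ G2 N).filter (fun x => ‖wd (α0 + Vt e N x.1) (α1 + Vt e N x.2)‖ <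
      κ * (nr (α0 + Vt e N x.1) + nr (α1 + Vt e N x.2)))).card : ℝ) ≤
      ((6 * κ / e) ^ 2 * (G2 N).card) * (G2 N).card +
      ((6 * κ / e) ^ 2 * (G2 N).card) * (G2 N).card := by
    refine le_trans ?_ (add_le_add h1 h2)
    exact_mod_cast h5
  refine h6.trans (le_of_eq ?_)
  rw [card_product]
  push_cast
  ring

end Pool.Agent.H73.ST
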