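import Mathlib

/-!
SHARP RATE (MP_8f2e1c_an), planar lemma HAR: logarithm of a zero free function on `|u| < 3` and the bound of its
derivative.

Proof. `h` is a primitive of `g'/g` with `exp (h 0) = g 0`. With `a = u0/3` and the automorphism
`φ s = 3 (s + a)/(1 + conj a s)` of the disc, Borel-Caratheodory for `h (φ s) - h u0`, whose real part is at most
`A = 1 + log (M/|g u0|)`; the points `|v| ≤ 14/5` correspond to `|s| ≤ 405/407`; Cauchy with radius `1/5`.
-/

set_option autoImplicit false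

open ComplexConjugate Metric

namespace Pool.Agent.H73.ST

/-- logarithm of a zero free function on a disc -/
theorem exists_log (g : ℂ → ℂ) (R : ℝ) (hR : 0 < R) (hg : DifferentiableOn ℂ g (ball 0 R))
    (hz : ∀ u ∈ ball (0 : ℂ) R, g u ≠ 0) :
    ∃ h : ℂ → ℂ, DifferentiableOn ℂ h (ball 0 R) ∧ ∀ u ∈ ball (0 : ℂ) R, Complex.exp (h u) = g u := by
  have h1 : DifferentiableOn ℂ (fun u => deriv g u / g u) (ball 0 R) :=
    (hg.deriv isOpen_ball).div hg hz
  obtain ⟨h, hh0, hh⟩ := h1.isExactOn_ball.with_val_at 0 (Complex.log (g 0))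
  have h0 : (0 : ℂ) ∈ ball (0 : ℂ) R := mem_ball_self hR
  have hhd : DifferentiableOn ℂ h (ball 0 R) :=
    fun u hu => (hh u hu).differentiableAt.differentiableWithinAt
  refine ⟨h, hhd, ?_⟩
  have h2 : ∀ u ∈ ball (0 : ℂ) R, HasDerivAt (fun u => g u * Complex.exp (-h u)) 0 u := by
    intro u hu
    have e1 : HasDerivAt g (deriv g u) u :=
      (hg.differentiableAt (isOpen_ball.mem_nhds hu)).hasDerivAt
    have e2 := e1.mul ((hh u hu).neg.cexp)
    have e3 : g u * (deriv g u / g u) = deriv g u := mul_div_cancel₀ _ (hz u hu)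
    have e4 : deriv g u * Complex.exp (-h u)
        + g u * (Complex.exp (-h u) * -(deriv g u / g u)) = 0 := by
      linear_combination (-Complex.exp (-h u)) * e3
    exact e4 ▸ e2
  have h3 : ∀ u ∈ ball (0 : ℂ) R, g u * Complex.exp (-h u) = 1 := by
    intro u hu
    have e1 := (convex_ball (0 : ℂ) R).is_const_of_fderivWithin_eq_zero (𝕜 := ℂ)
      (f := fun u => g u * Complex.exp (-h u))
      (fun x hx => (h2 x hx).differentiableAt.differentiableWithinAt)
      (fun x hx => by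
        rw [fderivWithin_of_isOpen isOpen_ball hx]
        have := (h2 x hx).hasFDerivAt.fderiv
        rw [this]
        ext
        simp) hu h0
    rw [e1]
    show g 0 * Complex.exp (-h 0) = 1
    rw [hh0, Complex.exp_neg, Complex.exp_log (hz 0 h0)]
    exact mul_inv_cancel₀ (hz 0 h0)
  intro u hu
  have := h3 u hu
  rw [Complex.exp_neg] at this
  have hne := Complex.exp_ne_zero (h u)
  field_simp at this
  exact this.symm

private theorem dsc (a b : ℂ) :
    ‖1 - conj a * b‖ ^ 2 - ‖b - a‖ ^ 2 = (1 - ‖a‖ ^ 2) * (1 - ‖b‖ ^ 2) := by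
  rw [← Complex.normSq_eq_norm_sq, ← Complex.normSq_eq_norm_sq, ← Complex.normSq_eq_norm_sq,
    ← Complex.normSq_eq_norm_sq]
  simp [Complex.normSq_apply]
  ring

/-- derivative of the logarithm of a zero free function -/
theorem har (g : ℂ → ℂ) (hg : DifferentiableOn ℂ g (ball 0 3))
    (hz : ∀ u ∈ ball (0 : ℂ) 3, g u ≠ 0) (M τ : ℝ) (hM : ∀ u ∈ ball (0 : ℂ) 3, ‖g u‖ ≤ M)
    (u0 : ℂ) (hu0 : ‖u0‖ ≤ 13 / 5) (hτ : 0 < τ) (hτ1 : τ ≤ ‖g u0‖) :
    ∃ h : ℂ → ℂ, DifferentiableOn ℂ h (ball 0 3) ∧ (∀ u ∈ ball (0 : ℂ) 3, Complex.exp (h u) = g u) ∧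
      ∀ u, ‖u‖ ≤ 13 / 5 → ‖deriv h u‖ ≤ 2025 * (1 + Real.log (M / τ)) := by
  obtain ⟨h, hh, he⟩ := exists_log g 3 (by norm_num) hg hz
  refine ⟨h, hh, he, ?_⟩
  have hu0b : u0 ∈ ball (0 : ℂ) 3 := by rw [mem_ball_zero_iff]; linarith
  have hg0 : 0 < ‖g u0‖ := hτ.trans_le hτ1
  have hM0 : 0 < M := hg0.trans_le (hM u0 hu0b)
  obtain ⟨A, hA⟩ : ∃ A : ℝ, A = 1 + Real.log (M / ‖g u0‖) := ⟨_, rfl⟩
  have hre : ∀ u ∈ ball (0 : ℂ) 3, (h u).re = Real.log ‖g u‖ := by
    intro u hu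
    rw [← he u hu, Complex.norm_exp, Real.log_exp]
  have hA1 : 1 ≤ A := by
    rw [hA]
    have : 0 ≤ Real.log (M / ‖g u0‖) := Real.log_nonneg (by
      rw [one_le_div hg0]
      exact hM u0 hu0b)
    linarith
  obtain ⟨a, ha⟩ : ∃ a : ℂ, a = u0 / 3 := ⟨_, rfl⟩
  have han : ‖a‖ ≤ 13 / 15 := by
    rw [ha, norm_div]
    norm_num
    linarith
  have ha2 : ‖a‖ ^ 2 ≤ (13 / 15) ^ 2 := pow_le_pow_left₀ (norm_nonneg _) han 2
  have hden : ∀ s : ℂ, ‖s‖ ≤ 1 → 1 + conj a * s ≠ 0 := by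
    intro s hs h0
    have e1 : ‖conj a * s‖ = 1 := by
      have : conj a * s = -1 := by
        rw [add_comm] at h0
        exact eq_neg_of_add_eq_zero_left h0
      rw [this, norm_neg, norm_one]
    rw [norm_mul, Complex.norm_conj] at e1
    nlinarith [norm_nonneg a, norm_nonneg s]
  let φ : ℂ → ℂ := fun s => 3 * (s + a) / (1 + conj a * s)
  have hφ : ∀ s : ℂ, ‖s‖ < 1 → φ s ∈ ball (0 : ℂ) 3 := by
    intro s hs
    rw [mem_ball_zero_iff]
    show ‖3 * (s + a) / (1 + conj a * s)‖ < 3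
    rw [norm_div, norm_mul, div_lt_iff₀ (norm_pos_iff.2 (hden s hs.le))]
    have e1 := dsc (-a) s
    simp only [map_neg, neg_mul, sub_neg_eq_add, norm_neg] at e1
    have e2 : 0 < (1 - ‖a‖ ^ 2) * (1 - ‖s‖ ^ 2) := by
      apply mul_pos
      · nlinarith
      · nlinarith [norm_nonneg s]
    have e3 : ‖s + a‖ < ‖1 + conj a * s‖ := by
      apply lt_of_pow_lt_pow_left₀ 2 (norm_nonneg _)
      linarith
    have e4 : ‖(3 : ℂ)‖ = 3 := by norm_num
    rw [e4]
    linarith
  have hφd : DifferentiableOn ℂ φ (ball 0 1) := by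
    intro s hs
    rw [mem_ball_zero_iff] at hs
    have := hden s hs.le
    apply DifferentiableAt.differentiableWithinAt
    show DifferentiableAt ℂ (fun s => 3 * (s + a) / (1 + conj a * s)) s
    fun_prop (disch := assumption)
  have hφ0 : φ 0 = u0 := by
    show 3 * (0 + a) / (1 + conj a * 0) = u0
    rw [ha]
    simp
    ring
  have hH : DifferentiableOn ℂ (fun s => h (φ s) - h u0) (ball 0 1) :=
    (hh.comp hφd (fun s hs => hφ s (by simpa using hs))).sub_const _
  have hHre : Set.MapsTo (fun s => h (φ s) - h u0) (ball 0 1) {z | z.re ≤ A} := by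
    intro s hs
    have hs1 : ‖s‖ < 1 := by simpa using hs
    show (h (φ s) - h u0).re ≤ A
    rw [Complex.sub_re, hre _ (hφ s hs1), hre _ hu0b]
    have e1 : Real.log ‖g (φ s)‖ ≤ Real.log M :=
      Real.log_le_log (norm_pos_iff.2 (hz _ (hφ s hs1))) (hM _ (hφ s hs1))
    rw [hA, Real.log_div hM0.ne' hg0.ne']
    linarith
  have hbc : ∀ v : ℂ, ‖v‖ ≤ 14 / 5 → ‖h v - h u0‖ ≤ 405 * A := by
    intro v hv
    obtain ⟨b, hb⟩ : ∃ b : ℂ, b = v / 3 := ⟨_, rfl⟩
    have hbn : ‖b‖ ≤ 14 / 15 := by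
      rw [hb, norm_div]
      norm_num
      linarith
    have hb2 : ‖b‖ ^ 2 ≤ (14 / 15) ^ 2 := pow_le_pow_left₀ (norm_nonneg _) hbn 2
    have hD : ‖1 - conj a * b‖ ≤ 407 / 225 := by
      calc ‖1 - conj a * b‖ ≤ ‖(1 : ℂ)‖ + ‖conj a * b‖ := norm_sub_le _ _
        _ = 1 + ‖a‖ * ‖b‖ := by rw [norm_mul, Complex.norm_conj, norm_one]
        _ ≤ 1 + 13 / 15 * (14 / 15) := by gcongr
        _ = 407 / 225 := by norm_num
    have hDpos : 1 - conj a * b ≠ 0 := by
      have := hden (-b) (by rw [norm_neg]; linarith)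
      intro h0
      apply this
      rw [mul_neg, ← sub_eq_add_neg]
      exact h0
    obtain ⟨s, hs⟩ : ∃ s : ℂ, s = (b - a) / (1 - conj a * b) := ⟨_, rfl⟩
    have hsn : ‖s‖ ≤ 405 / 407 := by
      rw [hs, norm_div, div_le_iff₀ (norm_pos_iff.2 hDpos)]
      apply le_of_sq_le_sq _ (by positivity)
      have e1 := dsc a b
      have e2 : (56 / 225) * (29 / 225) ≤ (1 - ‖a‖ ^ 2) * (1 - ‖b‖ ^ 2) := by
        apply mul_le_mul <;> nlinarith
      have e3 : ‖1 - conj a * b‖ ^ 2 ≤ (407 / 225) ^ 2 :=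
        pow_le_pow_left₀ (norm_nonneg _) hD 2
      nlinarith
    have hs1 : ‖s‖ < 1 := by linarith
    have hφs : φ s = v := by
      show 3 * (s + a) / (1 + conj a * s) = v
      have e1 : (1 + conj a * s) * (1 - conj a * b) = 1 - conj a * a := by
        have e3 : s * (1 - conj a * b) = b - a := by rw [hs, div_mul_cancel₀ _ hDpos]
        linear_combination conj a * e3
      have e2 : (s + a) * (1 - conj a * b) = b * (1 - conj a * a) := by
        have e3 : s * (1 - conj a * b) = b - a := by rw [hs, div_mul_cancel₀ _ hDpos]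
        linear_combination e3
      rw [div_eq_iff (hden s hs1.le)]
      apply mul_right_cancel₀ hDpos
      have : v = 3 * b := by rw [hb]; ring
      rw [mul_assoc, e2, mul_assoc, e1, this]
      ring
    have e5 := Complex.borelCaratheodory_zero (M := A) (R := 1) (z := s) (by linarith) hH hHre
      one_pos (by simpa using hs1) (by simp [hφ0])
    simp only [hφs] at e5
    refine e5.trans ?_
    rw [div_le_iff₀ (by linarith)]
    nlinarith [norm_nonneg s]
  intro u hu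
  have hsub : ball u (1 / 5) ⊆ ball (0 : ℂ) 3 := by
    intro x hx
    rw [mem_ball_zero_iff]
    have : ‖x - u‖ < 1 / 5 := by simpa [dist_eq_norm] using hx
    calc ‖x‖ = ‖(x - u) + u‖ := by ring_nf
      _ ≤ ‖x - u‖ + ‖u‖ := norm_add_le _ _
      _ < 3 := by linarith
  have hcl : closedBall u (1 / 5) ⊆ ball (0 : ℂ) 3 := by
    intro x hx
    rw [mem_ball_zero_iff]
    have : ‖x - u‖ ≤ 1 / 5 := by simpa [dist_eq_norm] using hx
    calc ‖x‖ = ‖(x - u) + u‖ := by ring_nf
      _ ≤ ‖x - u‖ + ‖u‖ := norm_add_le _ _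
      _ < 3 := by linarith
  have hdc : DiffContOnCl ℂ (fun v => h v - h u0) (ball u (1 / 5)) := by
    refine ⟨(hh.mono hsub).sub_const _, ?_⟩
    rw [closure_ball u (by norm_num : (1 / 5 : ℝ) ≠ 0)]
    exact (hh.continuousOn.mono hcl).sub continuousOn_const
  have hcau := Complex.norm_deriv_le_of_forall_mem_sphere_norm_le (by norm_num : (0 : ℝ) < 1 / 5)
    hdc (C := 405 * A) (by
      intro v hv
      apply hbc
      rw [mem_sphere, dist_eq_norm] at hv
      calc ‖v‖ = ‖(v - u) + u‖ := by ring_nf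
        _ ≤ ‖v - u‖ + ‖u‖ := norm_add_le _ _
        _ ≤ 14 / 5 := by linarith)
  rw [deriv_sub_const] at hcau
  have hAle : A ≤ 1 + Real.log (M / τ) := by
    rw [hA]
    have : Real.log (M / ‖g u0‖) ≤ Real.log (M / τ) := by
      apply Real.log_le_log (by positivity)
      exact div_le_div_of_nonneg_left hM0.le hτ hτ1
    linarith
  calc ‖deriv h u‖ ≤ 405 * A / (1 / 5) := hcau
    _ = 2025 * A := by ring
    _ ≤ _ := by linarith

end Pool.Agent.H73.ST
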