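import Pool.Agent.H73.ST.Var
import Pool.Agent.H73.ST.Bas
import Pool.Agent.H85.LD.Box

/-!
SHARP RATE (MP_8f2e1c_an), piece 1, NET0: finite net adapted to a planar pair.

Proof. `Z` = the points of `var` for both components and `0`; `δ u = 1` if the distance to `Z \ {0}` is at least `1`,
else the maximum of this distance and `t`; net: `z + 2^(-i) μ k`, `k` Gaussian integer, `|μ k| ≤ 3`,
`μ = q/(2 10^5 M L)`, `i ≤ 2 L`.
-/

set_option autoImplicit false

open Metric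
open Finset hiding box

namespace Pool.Agent.H73.ST

open Pool.Agent.H85.LD Pool.H70.SF

theorem round_gz (μ : ℝ) (hμ : 0 < μ) (hμ1 : μ ≤ 1) (x : ℂ) (hx : ‖x‖ ≤ 5 / 2) :
    ∃ k ∈ box ⌈3 / μ⌉₊, ‖(μ : ℂ) * gz k - x‖ ≤ μ := by
  have key : ∀ y : ℝ, |y| ≤ 5 / 2 → |(round (y / μ) : ℤ)| ≤ (⌈3 / μ⌉₊ : ℤ) ∧
      |μ * (round (y / μ) : ℤ) - y| ≤ μ / 2 := by
    intro y hy
    have h1 := abs_sub_round (y / μ)
    have h2 : |y / μ| ≤ 5 / 2 / μ := by
      rw [abs_div, abs_of_pos hμ]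
      gcongr
    constructor
    · have h3 : |((round (y / μ) : ℤ) : ℝ)| ≤ 3 / μ := by
        have h4 : |((round (y / μ) : ℤ) : ℝ)| ≤ |y / μ| + |y / μ - (round (y / μ) : ℤ)| := by
          have h5 := abs_sub_abs_le_abs_sub ((round (y / μ) : ℤ) : ℝ) (y / μ)
          rw [abs_sub_comm ((round (y / μ) : ℤ) : ℝ)] at h5
          linarith
        have h5 : (1 : ℝ) ≤ 1 / μ := by
          rw [one_le_div hμ]
          exact hμ1
        have h6 : 5 / 2 / μ + 1 / 2 * (1 / μ) = 3 / μ := by ring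
        linarith
      have h4 : |((round (y / μ) : ℤ) : ℝ)| ≤ (⌈3 / μ⌉₊ : ℝ) := h3.trans (Nat.le_ceil _)
      exact_mod_cast h4
    · have h3 : μ * (round (y / μ) : ℤ) - y = -(μ * (y / μ - (round (y / μ) : ℤ))) := by
        field_simp
        ring
      rw [h3, abs_neg, abs_mul, abs_of_pos hμ]
      calc μ * |y / μ - (round (y / μ) : ℤ)| ≤ μ * (1 / 2) := by gcongr
        _ = μ / 2 := by ring
  have hre := key x.re ((Complex.abs_re_le_norm x).trans hx)
  have him := key x.im ((Complex.abs_im_le_norm x).trans hx)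
  refine ⟨(round (x.re / μ), round (x.im / μ)), ?_, ?_⟩
  · rw [mem_box]
    exact ⟨hre.1, him.1⟩
  · refine (Complex.norm_le_abs_re_add_abs_im _).trans ?_
    have e1 : ((μ : ℂ) * gz (round (x.re / μ), round (x.im / μ)) - x).re =
        μ * (round (x.re / μ) : ℤ) - x.re := by
      simp [gz]
    have e2 : ((μ : ℂ) * gz (round (x.re / μ), round (x.im / μ)) - x).im =
        μ * (round (x.im / μ) : ℤ) - x.im := by
      simp [gz]
    rw [e1, e2]
    linarith [hre.2, him.2]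

/-- net adapted to a pair -/
theorem net0 (M t W q : ℝ) (hM : 1 ≤ M) (ht : 0 < t) (ht1 : t ≤ 1) (hW : 0 < W) (hq : 0 < q)
    (hq1 : q ≤ 1) (F : ℂ → ℂ × ℂ) (hF : Differentiable ℂ F)
    (hFM : ∀ u, ‖u‖ ≤ 4 → ‖(F u).1‖ ≤ M * W ∧ ‖(F u).2‖ ≤ M * W) :
    ∃ NN : Finset ℂ, (∀ n ∈ NN, ‖n‖ ≤ 3) ∧
      (NN.card : ℝ) ≤ 5 * 10 ^ 14 * M ^ 2 * (1 + Real.log (16 * M / t)) ^ 4 / q ^ 2 ∧
      ∀ u, ‖u‖ ≤ 5 / 2 → ∃ n ∈ NN, ∃ r, 0 < r ∧ r ≤ 1 ∧ ‖u - n‖ ≤ q * r ∧
        ∀ v, ‖v - u‖ ≤ r → nr (F v - F u) ≤ (nr (F u) + t * W) / 4 := by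
  classical
  obtain ⟨L, hL⟩ : ∃ L : ℝ, L = 1 + Real.log (16 * M / t) := ⟨_, rfl⟩
  have hlt : Real.log (1 / t) ≤ L - 1 := by
    rw [hL]
    have : Real.log (1 / t) ≤ Real.log (16 * M / t) := by
      apply Real.log_le_log (by positivity)
      gcongr
      linarith
    linarith
  have hL1 : 1 ≤ L := by
    have : 0 ≤ Real.log (1 / t) := by
      apply Real.log_nonneg
      rw [one_le_div ht]
      exact ht1
    linarith
  have hW0 : ((W : ℝ) : ℂ) ≠ 0 := by exact_mod_cast hW.ne'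
  have hdiv : ∀ x : ℂ, ‖x / ((W : ℝ) : ℂ)‖ = ‖x‖ / W := by
    intro x
    rw [norm_div, Complex.norm_real, Real.norm_of_nonneg hW.le]
  obtain ⟨Z1, hZ1c, hZ1⟩ := var M t hM ht ht1 (fun u => (F u).1 / ((W : ℝ) : ℂ))
    ((differentiable_fst.comp hF).div_const _) (fun u hu => by
      rw [hdiv, div_le_iff₀ hW]
      exact (hFM u hu).1)
  obtain ⟨Z2, hZ2c, hZ2⟩ := var M t hM ht ht1 (fun u => (F u).2 / ((W : ℝ) : ℂ))
    ((differentiable_snd.comp hF).div_const _) (fun u hu => by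
      rw [hdiv, div_le_iff₀ hW]
      exact (hFM u hu).2)
  rw [← hL] at hZ1c hZ1 hZ2c hZ2 ⊢
  obtain ⟨μ, hμ⟩ : ∃ μ : ℝ, μ = q / (2 * 10 ^ 5 * M * L) := ⟨_, rfl⟩
  have hML : 1 ≤ M * L := by nlinarith
  have hμ0 : 0 < μ := by rw [hμ]; positivity
  have hμ1 : μ ≤ 1 := by
    rw [hμ, div_le_one (by positivity)]
    nlinarith
  obtain ⟨Zt, hZt⟩ : ∃ Zt : Finset ℂ, Zt = insert 0 (Z1 ∪ Z2) := ⟨_, rfl⟩
  obtain ⟨Kb, hKb⟩ : ∃ Kb : ℕ, Kb = ⌈3 / μ⌉₊ := ⟨_, rfl⟩
  let G : (ℂ × ℕ) × (ℤ × ℤ) → ℂ := fun x => x.1.1 + (1 / 2 : ℂ) ^ x.1.2 * ((μ : ℂ) * gz x.2)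
  refine ⟨(((Zt ×ˢ range (⌊2 * L⌋₊ + 1)) ×ˢ box Kb).image G).filter (fun n => ‖n‖ ≤ 3),
    fun n hn => (mem_filter.1 hn).2, ?_, ?_⟩
  · have h1 : (Zt.card : ℝ) ≤ 51 * L := by
      have e1 : Zt.card ≤ Z1.card + Z2.card + 1 := by
        rw [hZt]
        refine (card_insert_le _ _).trans ?_
        have := card_union_le Z1 Z2
        omega
      have e2 : (Zt.card : ℝ) ≤ Z1.card + Z2.card + 1 := by exact_mod_cast e1
      linarith
    have h2 : ((range (⌊2 * L⌋₊ + 1)).card : ℝ) ≤ 3 * L := by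
      rw [card_range]
      push_cast
      have := Nat.floor_le (by positivity : 0 ≤ 2 * L)
      linarith
    have h3 : ((box Kb).card : ℝ) ≤ 81 / μ ^ 2 := by
      rw [box_card]
      push_cast
      have e1 : (Kb : ℝ) ≤ 3 / μ + 1 := by
        rw [hKb]
        exact (Nat.ceil_lt_add_one (by positivity)).le
      have e2 : (1 : ℝ) ≤ 1 / μ := by
        rw [one_le_div hμ0]
        exact hμ1
      have e3 : 2 * (Kb : ℝ) + 1 ≤ 9 / μ := by
        have e4 : 2 * (3 / μ + 1) + 1 = 6 / μ + 3 := by ring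
        have e5 : 6 / μ + 3 * (1 / μ) = 9 / μ := by ring
        linarith
      calc (2 * (Kb : ℝ) + 1) ^ 2 ≤ (9 / μ) ^ 2 := by gcongr
        _ = 81 / μ ^ 2 := by ring
    have h4 : ((((Zt ×ˢ range (⌊2 * L⌋₊ + 1)) ×ˢ box Kb).image G).filter
        (fun n => ‖n‖ ≤ 3)).card ≤ Zt.card * (range (⌊2 * L⌋₊ + 1)).card * (box Kb).card := by
      refine (card_filter_le _ _).trans (card_image_le.trans ?_)
      rw [card_product, card_product]
    calc _ ≤ (Zt.card : ℝ) * ((range (⌊2 * L⌋₊ + 1)).card : ℝ) * ((box Kb).card : ℝ) := by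
          exact_mod_cast h4
      _ ≤ 51 * L * (3 * L) * (81 / μ ^ 2) := by gcongr
      _ = 49572 * 10 ^ 10 * M ^ 2 * L ^ 4 / q ^ 2 := by
          rw [hμ]
          field_simp
          norm_num
      _ ≤ 5 * 10 ^ 14 * M ^ 2 * L ^ 4 / q ^ 2 := by
          have h5 : (49572 * 10 ^ 10 : ℝ) ≤ 5 * 10 ^ 14 := by norm_num
          exact div_le_div_of_nonneg_right (mul_le_mul_of_nonneg_right
            (mul_le_mul_of_nonneg_right h5 (by positivity)) (by positivity)) (by positivity)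
  · intro u hu
    obtain ⟨zc, δ, hzc, hδt, hδ1, hdist, hor1, hor2⟩ : ∃ zc δ, zc ∈ Zt ∧ t ≤ δ ∧ δ ≤ 1 ∧
        ‖u - zc‖ ≤ 5 / 2 * δ ∧ (δ ≤ t ∨ ∀ z ∈ Z1, δ ≤ ‖u - z‖) ∧
        (δ ≤ t ∨ ∀ z ∈ Z2, δ ≤ ‖u - z‖) := by
      by_cases hfar : ∀ z ∈ Z1 ∪ Z2, 1 ≤ ‖u - z‖
      · refine ⟨0, 1, by rw [hZt]; exact mem_insert_self _ _, ht1, le_rfl, ?_,
          Or.inr (fun z hz => hfar z (mem_union_left _ hz)),
          Or.inr (fun z hz => hfar z (mem_union_right _ hz))⟩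
        rw [sub_zero]
        linarith
      · push Not at hfar
        obtain ⟨z1, hz1, hz1d⟩ := hfar
        obtain ⟨z0, hz0, hz0m⟩ := exists_min_image (Z1 ∪ Z2) (fun z => ‖u - z‖) ⟨z1, hz1⟩
        have hz0d : ‖u - z0‖ < 1 := (hz0m z1 hz1).trans_lt hz1d
        refine ⟨z0, max ‖u - z0‖ t, by rw [hZt]; exact mem_insert_of_mem hz0,
          le_max_right _ _, max_le hz0d.le ht1, ?_, ?_, ?_⟩
        · have := le_max_left ‖u - z0‖ t
          have := norm_nonneg (u - z0)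
          linarith
        · rcases le_total ‖u - z0‖ t with h | h
          · left
            exact max_le h le_rfl
          · right
            intro z hz
            exact max_le (hz0m z (mem_union_left _ hz)) (h.trans (hz0m z (mem_union_left _ hz)))
        · rcases le_total ‖u - z0‖ t with h | h
          · left
            exact max_le h le_rfl
          · right
            intro z hz
            exact max_le (hz0m z (mem_union_right _ hz)) (h.trans (hz0m z (mem_union_right _ hz)))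
    have hδ0 : 0 < δ := ht.trans_le hδt
    obtain ⟨i, hi1, hi2⟩ := exists_nat_pow_near_of_lt_one hδ0 hδ1
      (by norm_num : (0 : ℝ) < 1 / 2) (by norm_num : (1 / 2 : ℝ) < 1)
    have hiL : (i : ℝ) ≤ 2 * L := by
      have h1 : (2 : ℝ) ^ i ≤ 1 / t := by
        rw [le_div_iff₀ ht]
        have h2 : (2 : ℝ) ^ i * (1 / 2) ^ i = 1 := by
          rw [← mul_pow]
          norm_num
        calc (2 : ℝ) ^ i * t ≤ 2 ^ i * (1 / 2) ^ i := by
              gcongr
              exact hδt.trans hi2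
          _ = 1 := h2
      have h2 := Real.log_le_log (by positivity) h1
      rw [Real.log_pow] at h2
      have h3 := Real.log_two_gt_d9
      have h4 : (i : ℝ) * (1 / 2) ≤ i * Real.log 2 := by
        gcongr
        linarith
      linarith
    have hp0 : (0 : ℝ) < (1 / 2) ^ i := by positivity
    have hpc : ((1 / 2 : ℂ)) ^ i ≠ 0 := pow_ne_zero _ (by norm_num)
    have hpn : ‖(1 / 2 : ℂ) ^ i‖ = (1 / 2 : ℝ) ^ i := by
      rw [norm_pow]
      norm_num
    obtain ⟨x, hx⟩ : ∃ x : ℂ, x = (u - zc) / (1 / 2 : ℂ) ^ i := ⟨_, rfl⟩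
    have hxn : ‖x‖ ≤ 5 / 2 := by
      rw [hx, norm_div, hpn, div_le_iff₀ hp0]
      exact hdist.trans (by gcongr)
    obtain ⟨k, hk, hkx⟩ := round_gz μ hμ0 hμ1 x hxn
    have hnu : u - G ((zc, i), k) = -((1 / 2 : ℂ) ^ i * ((μ : ℂ) * gz k - x)) := by
      show u - (zc + (1 / 2 : ℂ) ^ i * ((μ : ℂ) * gz k)) = _
      have : (1 / 2 : ℂ) ^ i * x = u - zc := by
        rw [hx, mul_div_cancel₀ _ hpc]
      linear_combination (-1 : ℂ) * this
    have hnd : ‖u - G ((zc, i), k)‖ ≤ q * (δ / (10 ^ 5 * M * L)) := by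
      rw [hnu, norm_neg, norm_mul, hpn]
      have h1 : (1 / 2 : ℝ) ^ i ≤ 2 * δ := by
        rw [pow_succ] at hi1
        linarith
      calc (1 / 2 : ℝ) ^ i * ‖(μ : ℂ) * gz k - x‖ ≤ 2 * δ * μ := by gcongr
        _ = q * (δ / (10 ^ 5 * M * L)) := by
          rw [hμ]
          field_simp
    have hr1 : δ / (10 ^ 5 * M * L) ≤ 1 / 10 ^ 5 := by
      rw [div_le_div_iff₀ (by positivity) (by norm_num)]
      nlinarith
    refine ⟨G ((zc, i), k), ?_, δ / (10 ^ 5 * M * L), by positivity,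
      hr1.trans (by norm_num), hnd, ?_⟩
    · rw [mem_filter]
      refine ⟨mem_image_of_mem G ?_, ?_⟩
      · rw [mem_product, mem_product]
        refine ⟨⟨hzc, ?_⟩, by rw [hKb]; exact hk⟩
        rw [mem_range, Nat.lt_succ_iff]
        exact Nat.le_floor hiL
      · have h1 : ‖G ((zc, i), k)‖ ≤ ‖u‖ + ‖u - G ((zc, i), k)‖ := by
          have := norm_sub_le u (u - G ((zc, i), k))
          rwa [sub_sub_cancel] at this
        have h2 : q * (δ / (10 ^ 5 * M * L)) ≤ 1 * (1 / 10 ^ 5) := by gcongr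
        linarith
    · intro v hv
      have e1 := hZ1 u hu δ hδ0 hδ1 hor1 v hv
      have e2 := hZ2 u hu δ hδ0 hδ1 hor2 v hv
      have e3 := nr_le_add (F v - F u)
      have e4 := fst_le_nr (F u)
      have e5 := snd_le_nr (F u)
      rw [← sub_div, hdiv, hdiv, div_le_iff₀ hW] at e1 e2
      have e6 : (‖(F u).1‖ / W + t) / 8 * W = (‖(F u).1‖ + t * W) / 8 := by
        field_simp
      have e7 : (‖(F u).2‖ / W + t) / 8 * W = (‖(F u).2‖ + t * W) / 8 := by
        field_simp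
      rw [e6] at e1
      rw [e7] at e2
      rw [Prod.fst_sub, Prod.snd_sub] at e3
      linarith

end Pool.Agent.H73.ST
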