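import Pool.Agent.H73.ST.Grid
import Pool.Agent.H85.LD.NsB
import Pool.Agent.H85.LD.ScB

/-!
SHARP RATE (MP_8f2e1c_an), piece 1: letters and noise of the static stage.

`Lt`: letters `((x0, y0), (x1, y1))`, `x` for `P`, `y` for `Q`; `tP`, `tQ` the triples used in `ns` (third component
`0`, `K = 1`). `trp`: the pair with the noise truncated at the scaled distance `T`, in the chart of `b`.
`own`: dependence on the own letter. `tail_val`: the truncation error. `noise_val`: size of the noise.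
-/

set_option autoImplicit false

open Polynomial
open Finset hiding box

namespace Pool.Agent.H73.ST

open Pool.Agent.H85.LD Pool.H70.SF

/-- letters -/
abbrev Lt : Type := ((ℤ × ℤ) × (ℤ × ℤ)) × ((ℤ × ℤ) × (ℤ × ℤ))

/-- the triple for `P` -/
def tP (x : Lt) : Tri := (x.1.1, x.2.1, 0)

/-- the triple for `Q` -/
def tQ (x : Lt) : Tri := (x.1.2, x.2.2, 0)

theorem tP_mem {N : ℕ} {x : Lt} (hx : x ∈ G2 N ×ˢ G2 N) : tP x ∈ tri N 1 := by
  unfold G2 at hx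
  rw [mem_product, mem_product, mem_product] at hx
  rw [mem_tri]
  refine ⟨?_, ?_, ?_⟩
  · simpa [tP] using hx.1.1
  · simpa [tP] using hx.2.1
  · exact (mem_box.2 (by simp [tP]))

theorem tQ_mem {N : ℕ} {x : Lt} (hx : x ∈ G2 N ×ˢ G2 N) : tQ x ∈ tri N 1 := by
  unfold G2 at hx
  rw [mem_product, mem_product, mem_product] at hx
  rw [mem_tri]
  refine ⟨?_, ?_, ?_⟩
  · simpa [tQ] using hx.1.2
  · simpa [tQ] using hx.2.2
  · exact (mem_box.2 (by simp [tQ]))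

theorem Fc_diff (d : ℕ) (b : ℂ) (P Q : ℂ[X]) : Differentiable ℂ (Fc d b P Q) :=
  (sc_diff d b P).prodMk (sc_diff d b Q)

theorem Fc_add (d : ℕ) (b : ℂ) (P Q P1 Q1 : ℂ[X]) (u : ℂ) :
    Fc d b (P + P1) (Q + Q1) u = Fc d b P Q u + Fc d b P1 Q1 u := by
  unfold Fc
  rw [sc_add, sc_add]
  rfl

/-- the pair with truncated noise, in the chart of `b` -/
noncomputable def trp (d : ℕ) (e : ℝ) (N : ℕ) (w : ℂ → ℝ) (s : Finset ℂ) (T : ℝ) (P Q : ℂ[X])
    (b : ℂ) (F : ℂ → Lt) : ℂ → ℂ × ℂ :=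
  Fc d b (P + trn d e N 1 w s T b (fun c => tP (F c))) (Q + trn d e N 1 w s T b (fun c => tQ (F c)))

theorem trp_diff (d : ℕ) (e : ℝ) (N : ℕ) (w : ℂ → ℝ) (s : Finset ℂ) (T : ℝ) (P Q : ℂ[X])
    (b : ℂ) (F : ℂ → Lt) : Differentiable ℂ (trp d e N w s T P Q b F) := Fc_diff _ _ _ _

theorem trp_dep (d : ℕ) (e : ℝ) (N : ℕ) (w : ℂ → ℝ) (s : Finset ℂ) (T : ℝ) (P Q : ℂ[X])
    (b : ℂ) (F G : ℂ → Lt) (h : ∀ c ∈ s, √d * sg b c ≤ T → F c = G c) :
    trp d e N w s T P Q b F = trp d e N w s T P Q b G := by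
  have h1 : trn d e N 1 w s T b (fun c => tP (F c)) = trn d e N 1 w s T b (fun c => tP (G c)) := by
    unfold trn
    apply sum_congr rfl
    intro c hc
    rw [mem_filter] at hc
    simp only [h c hc.1 hc.2]
  have h2 : trn d e N 1 w s T b (fun c => tQ (F c)) = trn d e N 1 w s T b (fun c => tQ (G c)) := by
    unfold trn
    apply sum_congr rfl
    intro c hc
    rw [mem_filter] at hc
    simp only [h c hc.1 hc.2]
  unfold trp
  rw [h1, h2]

/-- the noise of one letter in its own chart -/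
theorem Fc_ns (d : ℕ) (hd : 2 ≤ d) (e : ℝ) (N : ℕ) (w : ℂ → ℝ) (b : ℂ) (x : Lt) (u : ℂ) :
    Fc d b (ns d e N 1 w b (tP x)) (ns d e N 1 w b (tQ x)) u =
      ((w b : ℝ) : ℂ) • (Vt e N x.1 + u • Vt e N x.2) := by
  have h1 := (sc_ns d hd e N 1 w b (tP x) u).1
  have h2 := (sc_ns d hd e N 1 w b (tQ x) u).1
  unfold Fc
  rw [h1, h2]
  unfold J0 c0 c1 c2 tP tQ Vt
  have hg : gz (0 : ℤ × ℤ) = 0 := by simp [gz]
  apply Prod.ext
  · simp only [hg, one_pow, mul_one, mul_zero, zero_mul, add_zero, Prod.smul_mk, Prod.mk_add_mk,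
      smul_eq_mul]
    ring
  · simp only [hg, one_pow, mul_one, mul_zero, zero_mul, add_zero, Prod.smul_mk, Prod.mk_add_mk,
      smul_eq_mul]
    ring

open Classical in
theorem sum_upd {M : Type*} [AddCommMonoid M] (S : Finset ℂ) (b : ℂ) (hb : b ∈ S)
    (g : ℂ → Lt → M) (F : ℂ → Lt) (x : Lt) :
    ∑ c ∈ S, g c (Function.update F b x c) = ∑ c ∈ S.erase b, g c (F c) + g b x := by
  rw [← sum_erase_add S _ hb]
  congr 1
  · apply sum_congr rfl
    intro c hc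
    rw [mem_erase] at hc
    rw [Function.update_of_ne hc.1]
  · rw [Function.update_self]

open Classical in
/-- dependence on the own letter -/
theorem own (d : ℕ) (hd : 2 ≤ d) (e : ℝ) (N : ℕ) (w : ℂ → ℝ) (s : Finset ℂ) (T : ℝ) (hT : 0 ≤ T)
    (P Q : ℂ[X]) (b : ℂ) (hb : b ∈ s) (F : ℂ → Lt) :
    ∃ α : ℂ → ℂ × ℂ, Differentiable ℂ α ∧ ∀ x u, trp d e N w s T P Q b (Function.update F b x) u =
      α u + ((w b : ℝ) : ℂ) • (Vt e N x.1 + u • Vt e N x.2) := by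
  have hbm : b ∈ s.filter (fun c => √d * sg b c ≤ T) := by
    rw [mem_filter]
    exact ⟨hb, by rw [sg_self, mul_zero]; exact hT⟩
  refine ⟨Fc d b (P + ∑ c ∈ (s.filter (fun c => √d * sg b c ≤ T)).erase b,
      ns d e N 1 w c (tP (F c))) (Q + ∑ c ∈ (s.filter (fun c => √d * sg b c ≤ T)).erase b,
      ns d e N 1 w c (tQ (F c))), Fc_diff _ _ _ _, ?_⟩
  intro x u
  have hsum : ∀ t : Lt → Tri, trn d e N 1 w s T b (fun c => t (Function.update F b x c)) =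
      (∑ c ∈ (s.filter (fun c => √d * sg b c ≤ T)).erase b, ns d e N 1 w c (t (F c))) +
      ns d e N 1 w b (t x) := by
    intro t
    exact sum_upd _ b hbm (fun c y => ns d e N 1 w c (t y)) F x
  unfold trp
  rw [hsum tP, hsum tQ, ← add_assoc, ← add_assoc, Fc_add, Fc_ns d hd]

/-- size of a noise with bounded weighted size, in a chart -/
theorem Fc_size (d : ℕ) (hd : 1 ≤ d) (w : ℂ → ℝ) (hw : Wgt d w) (b : ℂ) (P Q : ℂ[X])
    (hP : P.natDegree ≤ d) (hQ : Q.natDegree ≤ d) (B : ℝ) (hB : 0 ≤ B)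
    (h1 : ∀ z, √d * sg b z ≤ 4 → wm d P z ≤ B * w z)
    (h2 : ∀ z, √d * sg b z ≤ 4 → wm d Q z ≤ B * w z) (u : ℂ) (hu : ‖u‖ ≤ 4) :
    nr (Fc d b P Q u) ≤ 3 * 10 ^ 5 * B * w b := by
  have e1 := sc_le d hd w hw b P hP B hB h1 u hu
  have e2 := sc_le d hd w hw b Q hQ B hB h2 u hu
  have e3 : nr (Fc d b P Q u) ≤ 3 / 2 * (2 * 10 ^ 5 * B * w b) := nr_le_of_comp e1 e2
  linarith

theorem sum_deg (d : ℕ) (s : Finset ℂ) (G : ℂ → ℂ[X]) (h : ∀ c ∈ s, (G c).natDegree ≤ d) :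
    (∑ c ∈ s, G c).natDegree ≤ d :=
  natDegree_sum_le_of_forall_le _ _ h

theorem Sep_mono {d : ℕ} {s s' : Finset ℂ} (h : s' ⊆ s) (hs : Sep d s) : Sep d s' :=
  fun b hb c hc hbc => hs b (h hb) c (h hc) hbc

/-- the truncated noise is small -/
theorem trp_noise (d : ℕ) (hd : 4 ≤ d) (e : ℝ) (he : 0 < e) (N : ℕ) (hN : 1 ≤ N) (w : ℂ → ℝ)
    (hw : Wgt d w) (s : Finset ℂ) (hs : Sep d s) (T : ℝ) (P Q : ℂ[X]) (b : ℂ) (F : ℂ → Lt)
    (hF : ∀ c ∈ s, √d * sg b c ≤ T → F c ∈ G2 N ×ˢ G2 N) (u : ℂ) (hu : ‖u‖ ≤ 4) :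
    nr (trp d e N w s T P Q b F u - Fc d b P Q u) ≤ 3 * 10 ^ 5 * (8 * 10 ^ 9 * e) * w b := by
  unfold trp
  rw [Fc_add, add_sub_cancel_left]
  apply Fc_size d (by omega) w hw b _ _ _ _ _ (by positivity)
  · intro z _
    exact ns_sum d hd e he N 1 hN le_rfl w hw _ (Sep_mono (filter_subset _ _) hs) _
      (fun c hc => by
        rw [mem_filter] at hc
        exact tP_mem (hF c hc.1 hc.2)) z
  · intro z _
    exact ns_sum d hd e he N 1 hN le_rfl w hw _ (Sep_mono (filter_subset _ _) hs) _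
      (fun c hc => by
        rw [mem_filter] at hc
        exact tQ_mem (hF c hc.1 hc.2)) z
  · exact hu
  · exact sum_deg d _ _ (fun c _ => ns_deg d (by omega) e N 1 w c _)
  · exact sum_deg d _ _ (fun c _ => ns_deg d (by omega) e N 1 w c _)

/-- truncation error -/
theorem trp_tail (d : ℕ) (hd : 4 ≤ d) (e : ℝ) (he : 0 < e) (N : ℕ) (hN : 1 ≤ N) (w : ℂ → ℝ)
    (hw : Wgt d w) (s : Finset ℂ) (hs : Sep d s) (T : ℝ) (P Q : ℂ[X]) (b : ℂ) (F : ℂ → Lt)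
    (hF : ∀ c, F c ∈ G2 N ×ˢ G2 N) (u : ℂ) (hu : ‖u‖ ≤ 4) :
    nr (Fc d b (P + ∑ c ∈ s, ns d e N 1 w c (tP (F c))) (Q + ∑ c ∈ s, ns d e N 1 w c (tQ (F c))) u -
      trp d e N w s T P Q b F u) ≤ 3 * 10 ^ 5 * (8 * 10 ^ 9 * e * Real.exp (4 - T)) * w b := by
  have hsum : ∀ t : Lt → Tri, ∑ c ∈ s, ns d e N 1 w c (t (F c)) =
      trn d e N 1 w s T b (fun c => t (F c)) +
      ∑ c ∈ s.filter (fun c => ¬ √d * sg b c ≤ T), ns d e N 1 w c (t (F c)) := by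
    intro t
    unfold trn
    rw [sum_filter_add_sum_filter_not]
  rw [hsum tP, hsum tQ, ← add_assoc, ← add_assoc, Fc_add]
  unfold trp
  rw [add_sub_cancel_left]
  apply Fc_size d (by omega) w hw b _ _ _ _ _ (by positivity)
  · intro z hz
    exact ns_tail d hd e he N 1 hN le_rfl w hw s hs _ (fun c _ => tP_mem (hF c)) T b z hz
  · intro z hz
    exact ns_tail d hd e he N 1 hN le_rfl w hw s hs _ (fun c _ => tQ_mem (hF c)) T b z hz
  · exact hu
  · exact sum_deg d _ _ (fun c _ => ns_deg d (by omega) e N 1 w c _)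
  · exact sum_deg d _ _ (fun c _ => ns_deg d (by omega) e N 1 w c _)

end Pool.Agent.H73.ST
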