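import Pool.Agent.H73.ST.Own

/-!
SHARP RATE (MP_8f2e1c_an), piece 1: the bad event of the static stage and its conditional probability.

Proof. With `own`: `F(u) = α u + W (V0 + u V1)`, `F'(u) = α' u + W V1`, so `F - n F' = W (α0 + V0)`,
`F' = W (α1 + V1)`, `J(n) = W² (α0 + V0) ∧ (α1 + V1)`. First event: as `|F - F0| ≤ A t W`, it implies `|F0 n| ≤ 2 A t W`
and `|F n| ≤ 10^7 k1 t W`. Then `cnt1`, `cnt2`.
-/

set_option autoImplicit false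

open Polynomial
open Finset hiding box

namespace Pool.Agent.H73.ST

open Pool.Agent.H85.LD Pool.H70.SF

/-- bad event of the centre `b` -/
def badS (d : ℕ) (e : ℝ) (N : ℕ) (w : ℂ → ℝ) (s : Finset ℂ) (T : ℝ) (P0 Q0 : ℂ[X]) (t k1 k2 : ℝ)
    (NN : ℂ → Finset ℂ) (b : ℂ) (F : ℂ → Lt) : Prop :=
  (∀ c ∈ s, √d * sg b c ≤ T → F c ∈ G2 N ×ˢ G2 N) ∧ ∃ n ∈ NN b,
    nr (trp d e N w s T P0 Q0 b F n) < 16 * k1 * (nr (Fc d b P0 Q0 n) + t * w b) ∨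
    ‖Jw (trp d e N w s T P0 Q0 b F) n‖ < 2 * k2 * t * w b *
      (nr (trp d e N w s T P0 Q0 b F n) + nr (deriv (trp d e N w s T P0 Q0 b F) n))

theorem badS_dep (d : ℕ) (e : ℝ) (N : ℕ) (w : ℂ → ℝ) (s : Finset ℂ) (T : ℝ) (P0 Q0 : ℂ[X])
    (t k1 k2 : ℝ) (NN : ℂ → Finset ℂ) (b : ℂ) (F G : ℂ → Lt)
    (h : ∀ c ∈ s, √d * sg b c ≤ T → F c = G c)
    (hF : badS d e N w s T P0 Q0 t k1 k2 NN b F) : badS d e N w s T P0 Q0 t k1 k2 NN b G := by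
  obtain ⟨h1, h2⟩ := hF
  refine ⟨fun c hc hcT => ?_, ?_⟩
  · rw [← h c hc hcT]
    exact h1 c hc hcT
  · rw [trp_dep d e N w s T P0 Q0 b F G h] at h2
    exact h2

private theorem ev_core (α : ℂ → ℂ × ℂ) (hα : Differentiable ℂ α) (W : ℝ) (hW : 0 < W)
    (V0 V1 : ℂ × ℂ) (G : ℂ → ℂ × ℂ) (hG : ∀ u, G u = α u + ((W : ℝ) : ℂ) • (V0 + u • V1)) (n : ℂ)
    (hn : ‖n‖ ≤ 3) :
    nr (G n) = W * nr (((W : ℝ) : ℂ)⁻¹ • α n + V0 + n • V1) ∧
    ‖Jw G n‖ = W ^ 2 * ‖wd (((W : ℝ) : ℂ)⁻¹ • (α n - n • deriv α n) + V0)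
      (((W : ℝ) : ℂ)⁻¹ • deriv α n + V1)‖ ∧
    nr (G n) + nr (deriv G n) ≤ 4 * W * (nr (((W : ℝ) : ℂ)⁻¹ • (α n - n • deriv α n) + V0) +
      nr (((W : ℝ) : ℂ)⁻¹ • deriv α n + V1)) := by
  have hWc : ((W : ℝ) : ℂ) ≠ 0 := by exact_mod_cast hW.ne'
  have hWn : ‖((W : ℝ) : ℂ)‖ = W := by
    rw [Complex.norm_real, Real.norm_of_nonneg hW.le]
  have hGf : G = fun u => α u + ((W : ℝ) : ℂ) • (V0 + u • V1) := funext hG
  have hd : deriv G n = deriv α n + ((W : ℝ) : ℂ) • V1 := by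
    have h1 : HasDerivAt G (deriv α n + ((W : ℝ) : ℂ) • ((1 : ℂ) • V1)) n := by
      rw [hGf]
      exact (hα n).hasDerivAt.add
        ((((hasDerivAt_id n).smul_const V1).const_add V0).const_smul ((W : ℝ) : ℂ))
    rw [h1.deriv, one_smul]
  obtain ⟨a, ha⟩ : ∃ a, a = ((W : ℝ) : ℂ)⁻¹ • (α n - n • deriv α n) + V0 := ⟨_, rfl⟩
  obtain ⟨c, hc⟩ : ∃ c, c = ((W : ℝ) : ℂ)⁻¹ • deriv α n + V1 := ⟨_, rfl⟩
  have hd' : deriv G n = ((W : ℝ) : ℂ) • c := by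
    rw [hd, hc, smul_add, smul_inv_smul₀ hWc]
  have hg' : G n = ((W : ℝ) : ℂ) • (a + n • c) := by
    rw [hG n, ha, hc]
    have : ((W : ℝ) : ℂ)⁻¹ • (α n - n • deriv α n) + V0 + n • (((W : ℝ) : ℂ)⁻¹ • deriv α n + V1) =
        ((W : ℝ) : ℂ)⁻¹ • α n + (V0 + n • V1) := by
      rw [smul_sub, smul_add, smul_comm n]
      abel
    rw [this, smul_add _ (((W : ℝ) : ℂ)⁻¹ • α n), smul_inv_smul₀ hWc]
  rw [← ha, ← hc]
  refine ⟨?_, ?_, ?_⟩
  · rw [hG n]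
    have : α n + ((W : ℝ) : ℂ) • (V0 + n • V1) =
        ((W : ℝ) : ℂ) • (((W : ℝ) : ℂ)⁻¹ • α n + V0 + n • V1) := by
      rw [add_assoc, smul_add _ (((W : ℝ) : ℂ)⁻¹ • α n), smul_inv_smul₀ hWc]
    rw [this, nr_smul, hWn]
  · unfold Jw
    rw [hd', hg']
    have : wd (((W : ℝ) : ℂ) • (a + n • c)) (((W : ℝ) : ℂ) • c) = ((W : ℝ) : ℂ) ^ 2 * wd a c := by
      unfold wd
      simp only [Prod.smul_fst, Prod.smul_snd, Prod.fst_add, Prod.snd_add, smul_eq_mul]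
      ring
    rw [this, norm_mul, norm_pow, hWn]
  · rw [hd', hg', nr_smul, nr_smul, hWn]
    have h1 := nr_add_le a (n • c)
    rw [nr_smul] at h1
    have h2 : ‖n‖ * nr c ≤ 3 * nr c := mul_le_mul_of_nonneg_right hn (nr_nonneg c)
    have h3 := nr_nonneg a
    nlinarith [nr_nonneg c]

open Classical in
/-- conditional probability of the bad event -/
theorem badS_prob (d : ℕ) (hd : 4 ≤ d) (t : ℝ) (ht : 0 < t) (N : ℕ) (hN : 1 ≤ N)
    (w : ℂ → ℝ) (hw : Wgt d w) (s : Finset ℂ) (hs : Sep d s) (T : ℝ) (hT : 0 ≤ T)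
    (P0 Q0 : ℂ[X]) (k1 k2 : ℝ) (hk1 : 0 < k1) (hk1' : k1 ≤ 1 / 48)
    (hk2 : 0 < k2) (hk1N : 1 ≤ k1 * N) (hk2N : 1 ≤ k2 * N) (NN : ℂ → Finset ℂ) (b : ℂ) (hb : b ∈ s)
    (hNN : ∀ n ∈ NN b, ‖n‖ ≤ 3) (B : ℝ) (hB : ((NN b).card : ℝ) ≤ B) (F : ℂ → Lt) :
    (((G2 N ×ˢ G2 N).filter (fun x => badS d (t / 10 ^ 10) N w s T P0 Q0 t k1 k2 NN b
      (Function.update F b x))).card : ℝ) ≤
      B * (10 ^ 70 * k1 ^ 4 + 10 ^ 24 * k2 ^ 2) * (G2 N ×ˢ G2 N).card := by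
  obtain ⟨e, he⟩ : ∃ e : ℝ, e = t / 10 ^ 10 := ⟨_, rfl⟩
  rw [← he]
  have he0 : 0 < e := by rw [he]; positivity
  have hW := hw.pos b
  obtain ⟨W, hWd⟩ : ∃ W, W = w b := ⟨_, rfl⟩
  rw [← hWd] at hW
  obtain ⟨α, hα, hown⟩ := own d (by omega) e N w s T hT P0 Q0 b hb F
  rw [← hWd] at hown
  obtain ⟨ρ, hρ⟩ : ∃ ρ : ℝ, ρ = 10 ^ 7 * k1 * t := ⟨_, rfl⟩
  obtain ⟨κ, hκ⟩ : ∃ κ : ℝ, κ = 8 * k2 * t := ⟨_, rfl⟩
  have hρ0 : 0 < ρ := by rw [hρ]; positivity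
  have hκ0 : 0 < κ := by rw [hκ]; positivity
  have hcρ : e ≤ 2 * ρ * N := by
    have : 2 * ρ * N = 2 * 10 ^ 7 * t * (k1 * N) := by rw [hρ]; ring
    rw [this, he]
    calc t / 10 ^ 10 ≤ 2 * 10 ^ 7 * t * 1 := by
          rw [div_le_iff₀ (by norm_num)]
          linarith
      _ ≤ _ := by gcongr
  have hcκ : e ≤ 6 * κ * N := by
    have : 6 * κ * N = 48 * t * (k2 * N) := by rw [hκ]; ring
    rw [this, he]
    calc t / 10 ^ 10 ≤ 48 * t * 1 := by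
          rw [div_le_iff₀ (by norm_num)]
          linarith
      _ ≤ _ := by gcongr
  have hsub : (G2 N ×ˢ G2 N).filter (fun x => badS d e N w s T P0 Q0 t k1 k2 NN b
      (Function.update F b x)) ⊆ (NN b).biUnion (fun n =>
      ((G2 N ×ˢ G2 N).filter (fun x => nr (((W : ℝ) : ℂ)⁻¹ • α n + Vt e N x.1 + n • Vt e N x.2)
        ≤ ρ)) ∪
      ((G2 N ×ˢ G2 N).filter (fun x => ‖wd (((W : ℝ) : ℂ)⁻¹ • (α n - n • deriv α n) + Vt e N x.1)
        (((W : ℝ) : ℂ)⁻¹ • deriv α n + Vt e N x.2)‖ <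
        κ * (nr (((W : ℝ) : ℂ)⁻¹ • (α n - n • deriv α n) + Vt e N x.1) +
          nr (((W : ℝ) : ℂ)⁻¹ • deriv α n + Vt e N x.2))))) := by
    intro x hx
    rw [mem_filter] at hx
    obtain ⟨hx1, hx2, n, hn, hor⟩ := hx
    rw [mem_biUnion]
    refine ⟨n, hn, ?_⟩
    rw [mem_union, mem_filter, mem_filter]
    obtain ⟨c1, c2, c3⟩ := ev_core α hα W hW (Vt e N x.1) (Vt e N x.2)
      (trp d e N w s T P0 Q0 b (Function.update F b x)) (hown x) n (hNN n hn)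
    rw [← hWd] at hor
    rcases hor with hor | hor
    · left
      refine ⟨hx1, ?_⟩
      have hnoise := trp_noise d hd e he0 N hN w hw s hs T P0 Q0 b (Function.update F b x) hx2 n
        (by linarith [hNN n hn])
      rw [← hWd] at hnoise
      have hA : 3 * 10 ^ 5 * (8 * 10 ^ 9 * e) * W ≤ 3 * 10 ^ 5 * (t * W) := by
        rw [he]
        have : 3 * 10 ^ 5 * (8 * 10 ^ 9 * (t / 10 ^ 10)) * W = 3 * 10 ^ 5 * (8 / 10) * (t * W) := by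
          ring
        rw [this]
        have := mul_pos ht hW
        nlinarith
      have hF0 := nr_le_of_sub (Fc d b P0 Q0 n) (trp d e N w s T P0 Q0 b (Function.update F b x) n)
      rw [nr_sub_comm (Fc d b P0 Q0 n)] at hF0
      have htW := mul_pos ht hW
      have h1 : 16 * k1 * (nr (Fc d b P0 Q0 n) + t * W) ≤
          1 / 3 * (nr (Fc d b P0 Q0 n) + t * W) := by
        apply mul_le_mul_of_nonneg_right (by linarith)
        have := nr_nonneg (Fc d b P0 Q0 n)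
        linarith
      have h2 : nr (Fc d b P0 Q0 n) ≤ 5 * 10 ^ 5 * (t * W) := by linarith
      have h3 : 16 * k1 * (nr (Fc d b P0 Q0 n) + t * W) ≤ W * ρ := by
        calc 16 * k1 * (nr (Fc d b P0 Q0 n) + t * W) ≤
              16 * k1 * (5 * 10 ^ 5 * (t * W) + t * W) := by gcongr
          _ ≤ W * ρ := by
              rw [hρ]
              have := mul_pos hk1 htW
              nlinarith
      rw [c1] at hor
      have h4 := (hor.trans_le h3).le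
      exact le_of_mul_le_mul_left h4 hW
    · right
      refine ⟨hx1, ?_⟩
      rw [c2] at hor
      have h1 : 2 * k2 * t * W * (nr (trp d e N w s T P0 Q0 b (Function.update F b x) n) +
          nr (deriv (trp d e N w s T P0 Q0 b (Function.update F b x)) n)) ≤
          2 * k2 * t * W * (4 * W * (nr (((W : ℝ) : ℂ)⁻¹ • (α n - n • deriv α n) + Vt e N x.1) +
          nr (((W : ℝ) : ℂ)⁻¹ • deriv α n + Vt e N x.2))) := by gcongr
      have h2 := hor.trans_le h1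
      have h3 : 2 * k2 * t * W * (4 * W * (nr (((W : ℝ) : ℂ)⁻¹ • (α n - n • deriv α n) +
          Vt e N x.1) + nr (((W : ℝ) : ℂ)⁻¹ • deriv α n + Vt e N x.2))) =
          W ^ 2 * (κ * (nr (((W : ℝ) : ℂ)⁻¹ • (α n - n • deriv α n) +
          Vt e N x.1) + nr (((W : ℝ) : ℂ)⁻¹ • deriv α n + Vt e N x.2))) := by
        rw [hκ]
        ring
      rw [h3] at h2
      exact lt_of_mul_lt_mul_left h2 (by positivity)
  have hcard := card_le_card hsub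
  have hX : (0 : ℝ) ≤ ((G2 N ×ˢ G2 N).card : ℝ) := Nat.cast_nonneg _
  have h1 : ∀ n ∈ NN b, (((((G2 N ×ˢ G2 N).filter (fun x => nr (((W : ℝ) : ℂ)⁻¹ • α n +
      Vt e N x.1 + n • Vt e N x.2) ≤ ρ)) ∪
      ((G2 N ×ˢ G2 N).filter (fun x => ‖wd (((W : ℝ) : ℂ)⁻¹ • (α n - n • deriv α n) + Vt e N x.1)
        (((W : ℝ) : ℂ)⁻¹ • deriv α n + Vt e N x.2)‖ <
        κ * (nr (((W : ℝ) : ℂ)⁻¹ • (α n - n • deriv α n) + Vt e N x.1) +
          nr (((W : ℝ) : ℂ)⁻¹ • deriv α n + Vt e N x.2))))).card : ℕ) : ℝ) ≤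
      (10 ^ 70 * k1 ^ 4 + 10 ^ 24 * k2 ^ 2) * (G2 N ×ˢ G2 N).card := by
    intro n _
    have e1 := cnt1 e ρ N he0 hρ0 hN hcρ (((W : ℝ) : ℂ)⁻¹ • α n) n
    have e2 := cnt2 e κ N he0 hκ0 hN hcκ (((W : ℝ) : ℂ)⁻¹ • (α n - n • deriv α n))
      (((W : ℝ) : ℂ)⁻¹ • deriv α n)
    have e3 : (2 * ρ / e) ^ 4 ≤ 10 ^ 70 * k1 ^ 4 := by
      have : 2 * ρ / e = 2 * 10 ^ 17 * k1 := by
        rw [hρ, he]
        field_simp
      rw [this]
      have : 0 < k1 ^ 4 := by positivity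
      have : (2 * 10 ^ 17 * k1) ^ 4 = 16 * 10 ^ 68 * k1 ^ 4 := by ring
      rw [this]
      linarith
    have e4 : 2 * (6 * κ / e) ^ 2 ≤ 10 ^ 24 * k2 ^ 2 := by
      have : 6 * κ / e = 48 * 10 ^ 10 * k2 := by
        rw [hκ, he]
        field_simp
        norm_num
      rw [this]
      have : 0 < k2 ^ 2 := by positivity
      have : 2 * (48 * 10 ^ 10 * k2) ^ 2 = 4608 * 10 ^ 20 * k2 ^ 2 := by ring
      rw [this]
      linarith
    refine le_trans (Nat.cast_le.2 (card_union_le _ _)) ?_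
    rw [Nat.cast_add, add_mul]
    apply add_le_add
    · exact e1.trans (mul_le_mul_of_nonneg_right e3 hX)
    · exact e2.trans (mul_le_mul_of_nonneg_right e4 hX)
  have h2 := (Nat.cast_le (α := ℝ)).2 (hcard.trans card_biUnion_le)
  refine h2.trans ?_
  rw [Nat.cast_sum]
  refine (sum_le_sum h1).trans ?_
  rw [sum_const, nsmul_eq_mul, mul_assoc]
  apply mul_le_mul_of_nonneg_right hB
  positivity

end Pool.Agent.H73.ST
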