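import Pool.Agent.H73.ST.Bas

/-!
SHARP RATE (MP_8f2e1c_an), piece 1, PTS: from the net to all points.

`F0` old pair, `F` new pair, `F - F0` at most `A t W` on `|u| ≤ 4`. `NN` is the net of `net0` for `F0` with fineness
`q0 ≤ qn k1/(50 A)`, `k1 ≤ 1`. (S1): `u`, `n`, `r` of the net; Schwarz for `F0` on the disc of radius `r` and for
`F - F0` on the disc of radius `1`. (S2): net at `v`; if `r > 50 A S/k1`, Schwarz gives `nr (F x - F v) ≤ nr (F v)/10`
for `|x - v| ≤ 2 S`, so the natural scale is `S = 1`, a contradiction with `r ≤ 1`.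
-/

set_option autoImplicit false

open Metric

namespace Pool.Agent.H73.ST

open Pool.Agent.H85.LD Pool.H70.SF

/-- hypotheses of the passage from the net to all points -/
structure PtH (A t W k1 qn q0 : ℝ) (F0 F : ℂ → ℂ × ℂ) (NN : Finset ℂ) : Prop where
  A1 : 1 ≤ A
  t0 : 0 < t
  t1 : t ≤ 1
  W0 : 0 < W
  k10 : 0 < k1
  k11 : k1 ≤ 1
  qn1 : qn ≤ 1
  q00 : 0 < q0
  q0b : 50 * A * q0 ≤ qn * k1
  dF0 : Differentiable ℂ F0
  dF : Differentiable ℂ F
  near : ∀ u, ‖u‖ ≤ 4 → nr (F u - F0 u) ≤ A * t * W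
  net : ∀ u, ‖u‖ ≤ 5 / 2 → ∃ n ∈ NN, ∃ r, 0 < r ∧ r ≤ 1 ∧ ‖u - n‖ ≤ q0 * r ∧
    ∀ v, ‖v - u‖ ≤ r → nr (F0 v - F0 u) ≤ (nr (F0 u) + t * W) / 4
  low : ∀ n ∈ NN, 8 * k1 * (nr (F0 n) + t * W) ≤ nr (F n)

variable {A t W k1 qn q0 : ℝ} {F0 F : ℂ → ℂ × ℂ} {NN : Finset ℂ}

/-- variation of the noise -/
theorem PtH.noise (h : PtH A t W k1 qn q0 F0 F NN) {u v : ℂ} (hu : ‖u‖ ≤ 5 / 2)
    (hv : ‖v - u‖ ≤ 1) :
    nr ((F v - F0 v) - (F u - F0 u)) ≤ 2 * A * t * W * ‖v - u‖ := by
  have h1 := schw' (F := fun x => F x - F0 x) (u := u) (r := 1) (B := 2 * A * t * W) one_pos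
    (h.dF.sub h.dF0) (fun x hx => by
      have e1 := h.near x (by
        calc ‖x‖ = ‖(x - u) + u‖ := by ring_nf
          _ ≤ ‖x - u‖ + ‖u‖ := norm_add_le _ _
          _ ≤ 4 := by linarith)
      have e2 := h.near u (by linarith)
      have e3 := nr_sub_le (F x - F0 x) (F u - F0 u)
      linarith) hv
  rwa [div_one] at h1

/-- (S1) -/
theorem PtH.lowall (h : PtH A t W k1 qn q0 F0 F NN) {u : ℂ} (hu : ‖u‖ ≤ 5 / 2) :
    k1 * (nr (F0 u) + t * W) ≤ nr (F u) := by
  obtain ⟨n, hn, r, hr0, hr1, hun, hvar⟩ := h.net u hu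
  have htW : 0 < t * W := mul_pos h.t0 h.W0
  have hE : 0 < nr (F0 u) + t * W := by
    have := nr_nonneg (F0 u)
    linarith
  have hq01 : q0 ≤ 1 / 50 := by
    have h1 := h.q0b
    have h2 : qn * k1 ≤ 1 := by
      calc qn * k1 ≤ 1 * 1 := mul_le_mul h.qn1 h.k11 h.k10.le (by norm_num)
        _ = 1 := one_mul 1
    have h3 : q0 ≤ A * q0 := by nlinarith [h.A1, h.q00]
    linarith
  have hAq : A * q0 ≤ k1 / 50 := by
    have h1 := h.q0b
    have h2 : qn * k1 ≤ k1 := by nlinarith [h.qn1, h.k10]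
    linarith
  have hq0k : q0 ≤ k1 / 50 := by
    have h3 : q0 ≤ A * q0 := by nlinarith [h.A1, h.q00]
    linarith
  have hnu : ‖n - u‖ ≤ q0 * r := by rwa [norm_sub_rev]
  have hnr : ‖n - u‖ ≤ r := hnu.trans (by nlinarith)
  have hn1 : ‖n - u‖ ≤ 1 := hnr.trans hr1
  have h1 := schw' hr0 h.dF0 hvar hnr
  have h2 : (nr (F0 u) + t * W) / 4 / r * ‖n - u‖ ≤ q0 * (nr (F0 u) + t * W) := by
    calc (nr (F0 u) + t * W) / 4 / r * ‖n - u‖ ≤ (nr (F0 u) + t * W) / 4 / r * (q0 * r) := by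
          gcongr
      _ = q0 * (nr (F0 u) + t * W) / 4 := by field_simp
      _ ≤ _ := by nlinarith [mul_pos h.q00 hE]
  have h3 := h.noise hu hn1
  have h4 : 2 * A * t * W * ‖n - u‖ ≤ 2 * (A * q0) * (nr (F0 u) + t * W) := by
    have e1 : ‖n - u‖ ≤ q0 := hnu.trans (by nlinarith [h.q00])
    have e2 : 0 ≤ 2 * A * t * W := by
      have := h.A1
      have := h.t0
      have := h.W0
      positivity
    calc 2 * A * t * W * ‖n - u‖ ≤ 2 * A * t * W * q0 := by gcongr
      _ = 2 * (A * q0) * (t * W) := by ring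
      _ ≤ _ := by
        have := nr_nonneg (F0 u)
        have := mul_pos (by linarith [h.A1] : 0 < A) h.q00
        gcongr
        linarith
  -- F n versus F u
  have h5 : nr (F n) ≤ nr (F u) + nr (F n - F u) := nr_le_of_sub _ _
  have h6 : nr (F n - F u) ≤ nr (F0 n - F0 u) + nr ((F n - F0 n) - (F u - F0 u)) := by
    have : F n - F u = (F0 n - F0 u) + ((F n - F0 n) - (F u - F0 u)) := by abel
    rw [this]
    exact nr_add_le _ _
  have h7 : nr (F0 u) ≤ nr (F0 n) + nr (F0 u - F0 n) := nr_le_of_sub _ _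
  rw [nr_sub_comm (F0 u)] at h7
  have h8 := h.low n hn
  have h9 : nr (F0 n - F0 u) ≤ q0 * (nr (F0 u) + t * W) := h1.trans h2
  have h10 : 8 * k1 * ((1 - q0) * (nr (F0 u) + t * W)) ≤ 8 * k1 * (nr (F0 n) + t * W) := by
    have := h.k10
    gcongr
    nlinarith
  have h11 : 2 * (A * q0) * (nr (F0 u) + t * W) ≤ k1 * (nr (F0 u) + t * W) := by
    gcongr
    linarith [h.k10]
  have h12 : q0 * (nr (F0 u) + t * W) ≤ k1 * (nr (F0 u) + t * W) := by
    gcongr
    linarith [h.k10]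
  have h13 : 4 * k1 * (nr (F0 u) + t * W) ≤ 8 * k1 * ((1 - q0) * (nr (F0 u) + t * W)) := by
    have : 8 * k1 * ((1 - q0) * (nr (F0 u) + t * W)) =
        8 * k1 * (nr (F0 u) + t * W) * (1 - q0) := by ring
    rw [this]
    have := mul_pos h.k10 hE
    nlinarith
  have := mul_pos h.k10 hE
  linarith

/-- the net point is near at natural scale -/
theorem PtH.near_net (h : PtH A t W k1 qn q0 F0 F NN) {u v : ℂ} {S : ℝ} (hu : ‖u‖ ≤ 3 / 2)
    (hS : NSc F u S) (hv : ‖v - u‖ ≤ S / 2) : ∃ n ∈ NN, ‖n - v‖ ≤ qn * S := by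
  have hS0 := hS.pos
  have hS1 := hS.le_one
  have hv2 : ‖v‖ ≤ 2 := by
    calc ‖v‖ = ‖(v - u) + u‖ := by ring_nf
      _ ≤ ‖v - u‖ + ‖u‖ := norm_add_le _ _
      _ ≤ 2 := by linarith
  obtain ⟨n, hn, r, hr0, hr1, hun, hvar⟩ := h.net v (by linarith)
  refine ⟨n, hn, ?_⟩
  have hA := h.A1
  have hA0 : 0 < A := by linarith
  have hk := h.k10
  have ht := h.t0
  have hW := h.W0
  have htW : 0 < t * W := mul_pos ht hW
  obtain ⟨E, hE⟩ : ∃ E : ℝ, E = nr (F0 v) + t * W := ⟨_, rfl⟩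
  have hEt : t * W ≤ E := by
    have := nr_nonneg (F0 v)
    linarith
  have hE0 : 0 < E := by linarith
  have hlow : k1 * E ≤ nr (F v) := by
    rw [hE]
    exact h.lowall (by linarith)
  have hFv : 0 < nr (F v) := (mul_pos hk hE0).trans_le hlow
  rw [← hE] at hvar
  -- the claim
  have hclaim : k1 * r ≤ 50 * A * S := by
    by_contra hcon
    push Not at hcon
    have h2S : 2 * S ≤ r := by
      have h1 : k1 * r ≤ r := by nlinarith [h.k11]
      have h2 : 2 * S ≤ 50 * A * S := by nlinarith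
      linarith
    have hvarx : ∀ x, ‖x - v‖ ≤ 2 * S → nr (F x - F v) ≤ nr (F v) / 10 := by
      intro x hx
      have e1 := schw' hr0 h.dF0 hvar (hx.trans h2S)
      have e2 := h.noise (by linarith : ‖v‖ ≤ 5 / 2) (by linarith : ‖x - v‖ ≤ 1)
      have e3 : nr (F x - F v) ≤ nr (F0 x - F0 v) + nr ((F x - F0 x) - (F v - F0 v)) := by
        have : F x - F v = (F0 x - F0 v) + ((F x - F0 x) - (F v - F0 v)) := by abel
        rw [this]
        exact nr_add_le _ _
      have e4 : E / 4 / r * ‖x - v‖ ≤ E / 4 / r * (2 * S) := by gcongr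
      have e5 : 2 * A * t * W * ‖x - v‖ ≤ 2 * A * E * (2 * S) / r := by
        rw [le_div_iff₀ hr0]
        calc 2 * A * t * W * ‖x - v‖ * r ≤ 2 * A * t * W * ‖x - v‖ * 1 := by gcongr
          _ = 2 * A * (t * W) * ‖x - v‖ := by ring
          _ ≤ 2 * A * E * (2 * S) := by gcongr
      have e6 : E / 4 / r * (2 * S) + 2 * A * E * (2 * S) / r = (1 / 2 + 4 * A) * (E * S / r) := by
        field_simp
        ring
      have e7 : (1 / 2 + 4 * A) * (E * S / r) ≤ 5 * A * (E * S / r) := by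
        gcongr
        linarith
      have e8 : 5 * A * (E * S / r) ≤ nr (F v) / 10 := by
        have e9 : 5 * A * (E * S / r) = (50 * A * S) / r * E / 10 := by
          field_simp
          ring
        rw [e9]
        have e10 : (50 * A * S) / r ≤ k1 := by
          rw [div_le_iff₀ hr0]
          exact hcon.le
        have e11 : (50 * A * S) / r * E ≤ k1 * E := by gcongr
        linarith
      linarith
    have hSone : S = 1 := by
      rcases hS.ext with h1 | ⟨x, hx, hxe⟩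
      · exact h1
      · exfalso
        have e1 : ‖x - v‖ ≤ 2 * S := by
          calc ‖x - v‖ = ‖(x - u) - (v - u)‖ := by ring_nf
            _ ≤ ‖x - u‖ + ‖v - u‖ := norm_sub_le _ _
            _ ≤ 2 * S := by linarith
        have e2 : ‖u - v‖ ≤ 2 * S := by
          rw [norm_sub_rev]
          linarith
        have e3 := hvarx x e1
        have e4 := hvarx u e2
        have e5 : nr (F x - F u) ≤ nr (F x - F v) + nr (F u - F v) := by
          have : F x - F u = (F x - F v) - (F u - F v) := by abel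
          rw [this]
          exact nr_sub_le _ _
        have e6 := nr_le_of_sub (F v) (F u)
        rw [nr_sub_comm (F v)] at e6
        rw [hxe] at e5
        linarith
    rw [hSone] at hcon
    have h1 : k1 * r ≤ 1 := by
      calc k1 * r ≤ 1 * 1 := mul_le_mul h.k11 hr1 hr0.le (by norm_num)
        _ = 1 := one_mul 1
    linarith
  rw [norm_sub_rev]
  refine hun.trans ?_
  have h1 : 50 * A * q0 * (k1 * r) ≤ qn * k1 * (50 * A * S) := by
    have h2 := h.q0b
    have h3 : 0 ≤ qn * k1 := by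
      have := h.q00
      have : 0 ≤ 50 * A * q0 := by positivity
      linarith
    exact mul_le_mul h2 hclaim (by positivity) h3
  have h2 : (50 * A * k1) * (q0 * r) ≤ (50 * A * k1) * (qn * S) := by linarith
  exact le_of_mul_le_mul_left h2 (by positivity)

end Pool.Agent.H73.ST
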