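import Pool.Agent.H73.ST.Prob
import Pool.Agent.H73.ST.Net0
import Pool.Agent.H73.ST.Pts
import Pool.Agent.H91.SR.Avd

/-!
SHARP RATE (MP_8f2e1c_an), piece 1: theorem STATIC.

Constants: `M = 2 10^5`, `A = 3 10^5`, `k1 = qn^2`, `k2 = qn^4`, `q0 = qn^3/(50 A)`, `e = t/10^10`, `N = ⌈1/qn^4⌉`,
`T = 4 + log (24 10^5/qn^4)`. Letters by `lll_cells`; the truncation error is `k2 t W/8` with derivative.
-/

set_option autoImplicit false

open Polynomial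
open Finset hiding box

namespace Pool.Agent.H73.ST

open Pool.Agent.H85.LD Pool.H70.SF

private theorem st_num (η f f' g g' J Jt : ℝ) (hη : 0 < η) (h1 : f ≤ g + η / 8)
    (h1' : g ≤ f + η / 8) (h2 : f' ≤ g' + η / 8) (h3 : 8 * η ≤ f) (h4 : 0 ≤ f')
    (hJ : Jt ≤ J + η / 8 * (f' + g)) (hJt : 2 * η * (g + g') ≤ Jt) : η * (f + f') ≤ J := by
  have e1 := mul_le_mul_of_nonneg_left h1 hη.le
  have e1' := mul_le_mul_of_nonneg_left h1' hη.le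
  have e2 := mul_le_mul_of_nonneg_left h2 hη.le
  have e3 := mul_le_mul_of_nonneg_left h3 hη.le
  have e4 := mul_nonneg hη.le h4
  nlinarith

private theorem st_T (qn : ℝ) (hq : 0 < qn) (hq1 : qn ≤ 1) :
    Real.exp (4 - (4 + Real.log (24 * 10 ^ 5 / qn ^ 4))) = qn ^ 4 / (24 * 10 ^ 5) ∧
    0 ≤ 4 + Real.log (24 * 10 ^ 5 / qn ^ 4) ∧
    4 + Real.log (24 * 10 ^ 5 / qn ^ 4) ≤ 26 + 4 * Real.log (1 / qn) := by
  have h4 : 0 < qn ^ 4 := by positivity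
  have h41 : qn ^ 4 ≤ 1 := pow_le_one₀ hq.le hq1
  refine ⟨?_, ?_, ?_⟩
  · have : 4 - (4 + Real.log (24 * 10 ^ 5 / qn ^ 4)) = -Real.log (24 * 10 ^ 5 / qn ^ 4) := by ring
    rw [this, Real.exp_neg, Real.exp_log (by positivity), inv_div]
  · have : 0 ≤ Real.log (24 * 10 ^ 5 / qn ^ 4) := by
      apply Real.log_nonneg
      rw [one_le_div h4]
      linarith
    linarith
  · have h1 : Real.log (24 * 10 ^ 5 / qn ^ 4) = Real.log (24 * 10 ^ 5) + 4 * Real.log (1 / qn) := by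
      rw [Real.log_div (by norm_num) h4.ne', Real.log_pow, Real.log_div one_ne_zero hq.ne',
        Real.log_one]
      push_cast
      ring
    have h2 : Real.log (24 * 10 ^ 5) ≤ 22 := by
      have h3 : (24 * 10 ^ 5 : ℝ) ≤ 2 ^ 22 := by norm_num
      have h5 := Real.log_le_log (by norm_num) h3
      rw [Real.log_pow] at h5
      have := Real.log_two_lt_d9
      push_cast at h5
      linarith
    rw [h1]
    generalize Real.log (24 * 10 ^ 5) = x at h2 ⊢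
    linarith

private theorem st_L (t : ℝ) (ht : 0 < t) :
    1 + Real.log (16 * (2 * 10 ^ 5) / t) ≤ 32 + Real.log (1 / t) := by
  have h1 : Real.log (16 * (2 * 10 ^ 5) / t) = Real.log (16 * (2 * 10 ^ 5)) + Real.log (1 / t) := by
    rw [Real.log_div (by norm_num) ht.ne', Real.log_div one_ne_zero ht.ne', Real.log_one]
    ring
  have h2 : Real.log (16 * (2 * 10 ^ 5)) ≤ 31 := by
    have h3 : (16 * (2 * 10 ^ 5) : ℝ) ≤ 2 ^ 31 := by norm_num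
    have h5 := Real.log_le_log (by norm_num) h3
    rw [Real.log_pow] at h5
    have := Real.log_two_lt_d9
    push_cast at h5
    linarith
  rw [h1]
  generalize Real.log (16 * (2 * 10 ^ 5)) = x at h2 ⊢
  linarith

/-- from the net to `STAT` at one centre -/
theorem stat_pts (t k1 k2 qn q0 W : ℝ) (F0 F Ft : ℂ → ℂ × ℂ) (NN : Finset ℂ)
    (ht : 0 < t) (ht1 : t ≤ 1) (hW : 0 < W) (hk1 : 0 < k1) (hk11 : k1 ≤ 1) (hk2 : 0 < k2)
    (hk21 : k2 ≤ k1) (hqn1 : qn ≤ 1) (hq0 : 0 < q0) (hq0b : 50 * (3 * 10 ^ 5) * q0 ≤ qn * k1)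
    (dF0 : Differentiable ℂ F0) (dF : Differentiable ℂ F) (dFt : Differentiable ℂ Ft)
    (near : ∀ u, ‖u‖ ≤ 4 → nr (F u - F0 u) ≤ 3 * 10 ^ 5 * t * W)
    (tail : ∀ u, ‖u‖ ≤ 4 → nr (F u - Ft u) ≤ k2 * t * W / 8)
    (hNN : ∀ n ∈ NN, ‖n‖ ≤ 3)
    (net : ∀ u, ‖u‖ ≤ 5 / 2 → ∃ n ∈ NN, ∃ r, 0 < r ∧ r ≤ 1 ∧ ‖u - n‖ ≤ q0 * r ∧
      ∀ v, ‖v - u‖ ≤ r → nr (F0 v - F0 u) ≤ (nr (F0 u) + t * W) / 4)
    (ev : ∀ n ∈ NN, 16 * k1 * (nr (F0 n) + t * W) ≤ nr (Ft n) ∧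
      2 * k2 * t * W * (nr (Ft n) + nr (deriv Ft n)) ≤ ‖Jw Ft n‖) :
    STAT F F0 W t k1 k2 qn := by
  have htW := mul_pos ht hW
  have hη : 0 < k2 * t * W := by positivity
  have hlow : ∀ n ∈ NN, 8 * k1 * (nr (F0 n) + t * W) ≤ nr (F n) := by
    intro n hn
    have h1 := (ev n hn).1
    have h2 := tail n (by linarith [hNN n hn])
    have h3 := nr_le_of_sub (Ft n) (F n)
    rw [nr_sub_comm (Ft n)] at h3
    have h4 : k2 * t * W / 8 ≤ 8 * k1 * (t * W) := by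
      have : k2 * (t * W) ≤ k1 * (t * W) := by gcongr
      have := mul_pos hk1 htW
      linarith
    have h5 : 0 ≤ 8 * k1 * nr (F0 n) := by
      have := nr_nonneg (F0 n)
      positivity
    linarith
  have hP : PtH (3 * 10 ^ 5) t W k1 qn q0 F0 F NN :=
    { A1 := by norm_num
      t0 := ht
      t1 := ht1
      W0 := hW
      k10 := hk1
      k11 := hk11
      qn1 := hqn1
      q00 := hq0
      q0b := hq0b
      dF0 := dF0
      dF := dF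
      near := near
      net := net
      low := hlow }
  refine ⟨fun u hu => hP.lowall (by linarith), ?_⟩
  intro u S hu hS v hv
  obtain ⟨n, hn, hnv⟩ := hP.near_net hu hS hv
  refine ⟨n, hnv, ?_⟩
  have hn3 := hNN n hn
  have e1 := tail n (by linarith)
  have e2 := cauP (F := fun x => F x - Ft x) (u := n) (r := 1) (B := k2 * t * W / 8) one_pos
    (dF.sub dFt) (fun v hv => tail v (by
      calc ‖v‖ = ‖(v - n) + n‖ := by ring_nf
        _ ≤ ‖v - n‖ + ‖n‖ := norm_add_le _ _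
        _ ≤ 4 := by linarith))
  have e3 : deriv (fun x => F x - Ft x) n = deriv F n - deriv Ft n :=
    deriv_sub (dF n) (dFt n)
  rw [e3, div_one] at e2
  have e4 : Jw Ft n = Jw F n - (wd (F n - Ft n) (deriv F n) + wd (Ft n) (deriv F n - deriv Ft n)) := by
    unfold Jw wd
    simp only [Prod.fst_sub, Prod.snd_sub]
    ring
  have e5 : ‖Jw Ft n‖ ≤ ‖Jw F n‖ + k2 * t * W / 8 * (nr (deriv F n) + nr (Ft n)) := by
    rw [e4]
    refine (norm_sub_le _ _).trans ?_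
    have h1 := norm_add_le (wd (F n - Ft n) (deriv F n)) (wd (Ft n) (deriv F n - deriv Ft n))
    have h2 := wd_le (F n - Ft n) (deriv F n)
    have h3 := wd_le (Ft n) (deriv F n - deriv Ft n)
    have h4 : nr (F n - Ft n) * nr (deriv F n) ≤ k2 * t * W / 8 * nr (deriv F n) :=
      mul_le_mul_of_nonneg_right e1 (nr_nonneg _)
    have h5 : nr (Ft n) * nr (deriv F n - deriv Ft n) ≤ nr (Ft n) * (k2 * t * W / 8) :=
      mul_le_mul_of_nonneg_left e2 (nr_nonneg _)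
    linarith
  have e6 : 8 * (k2 * t * W) ≤ nr (F n) := by
    have h1 := hlow n hn
    have h2 : k2 * (t * W) ≤ k1 * (t * W) := by gcongr
    have h3 : 0 ≤ 8 * k1 * nr (F0 n) := by
      have := nr_nonneg (F0 n)
      positivity
    linarith
  have e7 := nr_le_of_sub (F n) (Ft n)
  have e8 := nr_le_of_sub (Ft n) (F n)
  rw [nr_sub_comm (Ft n)] at e8
  have e9 := nr_le_of_sub (deriv F n) (deriv Ft n)
  exact st_num (k2 * t * W) (nr (F n)) (nr (deriv F n)) (nr (Ft n)) (nr (deriv Ft n)) ‖Jw F n‖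
    ‖Jw Ft n‖ hη (by linarith) (by linarith) (by linarith) e6 (nr_nonneg _) e5
    (by
      have := (ev n hn).2
      linarith)

/-- STATIC: the noise of relative size `t` -/
theorem static : ∃ C1 : ℝ, 1 ≤ C1 ∧ ∀ t qn : ℝ, 0 < t → t ≤ 1 → 0 < qn → qn ≤ 1 →
    C1 * (1 + Real.log (1 / t) + Real.log (1 / qn)) ^ 20 * qn ^ 2 ≤ 1 →
    ∀ d : ℕ, 4 ≤ d → ∀ s : Finset ℂ, Sep d s → ∀ w : ℂ → ℝ, Wgt d w → ∀ P0 Q0 : ℂ[X],
      P0.natDegree ≤ d → Q0.natDegree ≤ d → (∀ z, wm d P0 z ≤ w z) → (∀ z, wm d Q0 z ≤ w z) →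
      ∃ P Q : ℂ[X], P.natDegree ≤ d ∧ Q.natDegree ≤ d ∧ (∀ z, wm d (P - P0) z ≤ t * w z) ∧
        (∀ z, wm d (Q - Q0) z ≤ t * w z) ∧
        ∀ b ∈ s, STAT (Fc d b P Q) (Fc d b P0 Q0) (w b) t (qn ^ 2) (qn ^ 4) qn := by
  classical
  refine ⟨10 ^ 130, by norm_num, ?_⟩
  intro t qn ht ht1 hq hq1 hC d hd s hs w hw P0 Q0 hP0 hQ0 hwP hwQ
  obtain ⟨Y, hY⟩ : ∃ Y : ℝ, Y = 1 + Real.log (1 / t) + Real.log (1 / qn) := ⟨_, rfl⟩
  rw [← hY] at hC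
  have hlt : 0 ≤ Real.log (1 / t) := Real.log_nonneg (by rw [one_le_div ht]; exact ht1)
  have hlq : 0 ≤ Real.log (1 / qn) := Real.log_nonneg (by rw [one_le_div hq]; exact hq1)
  have hY1 : 1 ≤ Y := by linarith
  obtain ⟨k1, hk1⟩ : ∃ k1 : ℝ, k1 = qn ^ 2 := ⟨_, rfl⟩
  obtain ⟨k2, hk2⟩ : ∃ k2 : ℝ, k2 = qn ^ 4 := ⟨_, rfl⟩
  have hk10 : 0 < k1 := by rw [hk1]; positivity
  have hk20 : 0 < k2 := by rw [hk2]; positivity
  have hk11 : k1 ≤ 1 := by rw [hk1]; exact pow_le_one₀ hq.le hq1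
  have hk21 : k2 ≤ k1 := by
    rw [hk1, hk2]
    exact pow_le_pow_of_le_one hq.le hq1 (by norm_num)
  have hk1s : k1 ≤ 1 / 48 := by
    have h1 : (1 : ℝ) ≤ Y ^ 20 := one_le_pow₀ hY1
    have h2 : 10 ^ 130 * 1 * k1 ≤ 10 ^ 130 * Y ^ 20 * k1 := by gcongr
    rw [hk1] at h2 ⊢
    have h3 : 48 * qn ^ 2 ≤ 10 ^ 130 * 1 * qn ^ 2 := by
      have : 0 < qn ^ 2 := by positivity
      nlinarith
    linarith
  obtain ⟨N, hN⟩ : ∃ N : ℕ, N = ⌈1 / k2⌉₊ := ⟨_, rfl⟩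
  have hNk : 1 / k2 ≤ N := by rw [hN]; exact Nat.le_ceil _
  have hk2N : 1 ≤ k2 * N := by
    rw [div_le_iff₀ hk20] at hNk
    linarith
  have hk1N : 1 ≤ k1 * N := hk2N.trans (by gcongr)
  have hN1 : 1 ≤ N := by
    by_contra hcon
    have : N = 0 := by omega
    rw [this] at hk2N
    norm_num at hk2N
  obtain ⟨hTe, hT0, hTle⟩ := st_T qn hq hq1
  obtain ⟨T, hT⟩ : ∃ T : ℝ, T = 4 + Real.log (24 * 10 ^ 5 / qn ^ 4) := ⟨_, rfl⟩
  rw [← hT] at hTe hT0 hTle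
  obtain ⟨q0, hq0⟩ : ∃ q0 : ℝ, q0 = qn ^ 3 / (50 * (3 * 10 ^ 5)) := ⟨_, rfl⟩
  have hq00 : 0 < q0 := by rw [hq0]; positivity
  have hq01 : q0 ≤ 1 := by
    rw [hq0, div_le_one (by norm_num)]
    have : qn ^ 3 ≤ 1 := pow_le_one₀ hq.le hq1
    linarith
  obtain ⟨e, he⟩ : ∃ e : ℝ, e = t / 10 ^ 10 := ⟨_, rfl⟩
  have he0 : 0 < e := by rw [he]; positivity
  -- the nets
  have hnet : ∀ b : ℂ, ∃ NN : Finset ℂ, (∀ n ∈ NN, ‖n‖ ≤ 3) ∧
      (NN.card : ℝ) ≤ 5 * 10 ^ 14 * (2 * 10 ^ 5) ^ 2 *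
        (1 + Real.log (16 * (2 * 10 ^ 5) / t)) ^ 4 / q0 ^ 2 ∧
      ∀ u, ‖u‖ ≤ 5 / 2 → ∃ n ∈ NN, ∃ r, 0 < r ∧ r ≤ 1 ∧ ‖u - n‖ ≤ q0 * r ∧
        ∀ v, ‖v - u‖ ≤ r → nr (Fc d b P0 Q0 v - Fc d b P0 Q0 u) ≤
          (nr (Fc d b P0 Q0 u) + t * w b) / 4 := by
    intro b
    apply net0 (2 * 10 ^ 5) t (w b) q0 (by norm_num) ht ht1 (hw.pos b) hq00 hq01 _
      (Fc_diff d b P0 Q0)
    intro u hu
    have h1 := sc_le d (by omega) w hw b P0 hP0 1 zero_le_one (fun z _ => by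
      rw [one_mul]; exact hwP z) u hu
    have h2 := sc_le d (by omega) w hw b Q0 hQ0 1 zero_le_one (fun z _ => by
      rw [one_mul]; exact hwQ z) u hu
    rw [mul_one] at h1 h2
    exact ⟨h1, h2⟩
  choose NN hNN3 hNNc hNNn using hnet
  obtain ⟨B, hB⟩ : ∃ B : ℝ, B = 5 * 10 ^ 14 * (2 * 10 ^ 5) ^ 2 *
        (1 + Real.log (16 * (2 * 10 ^ 5) / t)) ^ 4 / q0 ^ 2 := ⟨_, rfl⟩
  rw [← hB] at hNNc
  have hB0 : 0 ≤ B := (Nat.cast_nonneg _).trans (hNNc 0)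
  -- the local lemma
  have hXne : (G2 N ×ˢ G2 N).Nonempty := by
    have h1 : (G2 N).Nonempty := (box_nonempty N).product (box_nonempty N)
    exact h1.product h1
  have hp4 : 4 * (B * (10 ^ 70 * k1 ^ 4 + 10 ^ 24 * k2 ^ 2)) * (65 * (2 * T + 1) ^ 2) ≤ 1 := by
    have e1 : 10 ^ 70 * k1 ^ 4 + 10 ^ 24 * k2 ^ 2 ≤ 10 ^ 71 * qn ^ 8 := by
      rw [hk1, hk2]
      have : 0 < qn ^ 8 := by positivity
      have h1 : (qn ^ 2) ^ 4 = qn ^ 8 := by ring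
      have h2 : (qn ^ 4) ^ 2 = qn ^ 8 := by ring
      rw [h1, h2]
      linarith
    have e2 : B ≤ 45 * 10 ^ 38 * (32 * Y) ^ 4 / qn ^ 6 := by
      rw [hB, hq0]
      have h1 := st_L t ht
      have h2 : 1 + Real.log (16 * (2 * 10 ^ 5) / t) ≤ 32 * Y := by linarith
      have h0 : 0 ≤ 1 + Real.log (16 * (2 * 10 ^ 5) / t) := by
        have : 0 ≤ Real.log (16 * (2 * 10 ^ 5) / t) := by
          apply Real.log_nonneg
          rw [one_le_div ht]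
          linarith
        linarith
      have h3 : (1 + Real.log (16 * (2 * 10 ^ 5) / t)) ^ 4 ≤ (32 * Y) ^ 4 :=
        pow_le_pow_left₀ h0 h2 4
      have h4 : 5 * 10 ^ 14 * (2 * 10 ^ 5) ^ 2 * (1 + Real.log (16 * (2 * 10 ^ 5) / t)) ^ 4 /
          (qn ^ 3 / (50 * (3 * 10 ^ 5))) ^ 2 =
          45 * 10 ^ 38 * (1 + Real.log (16 * (2 * 10 ^ 5) / t)) ^ 4 / qn ^ 6 := by
        generalize Real.log (16 * (2 * 10 ^ 5) / t) = x
        field_simp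
        ring
      rw [h4]
      gcongr
    have e3 : (2 * T + 1) ^ 2 ≤ (53 * Y) ^ 2 := by
      apply pow_le_pow_left₀ (by linarith)
      linarith
    have hY6 : Y ^ 6 ≤ Y ^ 20 := pow_le_pow_right₀ hY1 (by norm_num)
    calc 4 * (B * (10 ^ 70 * k1 ^ 4 + 10 ^ 24 * k2 ^ 2)) * (65 * (2 * T + 1) ^ 2) ≤
          4 * ((45 * 10 ^ 38 * (32 * Y) ^ 4 / qn ^ 6) * (10 ^ 71 * qn ^ 8)) *
            (65 * (53 * Y) ^ 2) := by gcongr
      _ = 4 * 45 * 10 ^ 38 * 32 ^ 4 * 10 ^ 71 * 65 * 53 ^ 2 * (Y ^ 6 * qn ^ 2) := by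
          field_simp
      _ ≤ 4 * 45 * 10 ^ 38 * 32 ^ 4 * 10 ^ 71 * 65 * 53 ^ 2 * (Y ^ 20 * qn ^ 2) := by gcongr
      _ ≤ 10 ^ 130 * (Y ^ 20 * qn ^ 2) := by
          apply mul_le_mul_of_nonneg_right _ (by positivity)
          norm_num
      _ ≤ 1 := by linarith
  obtain ⟨F, hFX, hFb⟩ := Pool.H91.SR.lll_cells d (by omega) s hs (G2 N ×ˢ G2 N) hXne
    (fun b F => badS d e N w s T P0 Q0 t k1 k2 NN b F) T hT0
    (B * (10 ^ 70 * k1 ^ 4 + 10 ^ 24 * k2 ^ 2)) (by positivity)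
    (fun b F G h hF => badS_dep d e N w s T P0 Q0 t k1 k2 NN b F G h hF)
    (fun b hb F => by
      rw [he]
      exact badS_prob d hd t ht N hN1 w hw s hs T hT0 P0 Q0 k1 k2 hk10 hk1s hk20 hk1N hk2N
        NN b hb (hNN3 b) B (hNNc b) F) hp4
  -- the new pair
  have hPS : ∀ (tt : Lt → Tri), (∀ x ∈ G2 N ×ˢ G2 N, tt x ∈ tri N 1) → ∀ z,
      wm d (∑ c ∈ s, ns d e N 1 w c (tt (F c))) z ≤ 8 * 10 ^ 9 * e * w z :=
    fun tt htt z => ns_sum d hd e he0 N 1 hN1 le_rfl w hw s hs (fun c => tt (F c))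
      (fun c _ => htt _ (hFX c)) z
  have hPSP := hPS tP (fun x hx => tP_mem hx)
  have hPSQ := hPS tQ (fun x hx => tQ_mem hx)
  have h8e : 8 * 10 ^ 9 * e ≤ t := by
    rw [he]
    linarith
  have hdegP : (∑ c ∈ s, ns d e N 1 w c (tP (F c))).natDegree ≤ d :=
    sum_deg d _ _ (fun c _ => ns_deg d (by omega) e N 1 w c _)
  have hdegQ : (∑ c ∈ s, ns d e N 1 w c (tQ (F c))).natDegree ≤ d :=
    sum_deg d _ _ (fun c _ => ns_deg d (by omega) e N 1 w c _)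
  refine ⟨P0 + ∑ c ∈ s, ns d e N 1 w c (tP (F c)), Q0 + ∑ c ∈ s, ns d e N 1 w c (tQ (F c)),
    natDegree_add_le_of_degree_le hP0 hdegP, natDegree_add_le_of_degree_le hQ0 hdegQ, ?_, ?_, ?_⟩
  · intro z
    rw [add_sub_cancel_left]
    exact (hPSP z).trans (mul_le_mul_of_nonneg_right h8e (hw.pos z).le)
  · intro z
    rw [add_sub_cancel_left]
    exact (hPSQ z).trans (mul_le_mul_of_nonneg_right h8e (hw.pos z).le)
  intro b hb
  have hWb := hw.pos b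
  have htWb := mul_pos ht hWb
  rw [← hk1, ← hk2]
  apply stat_pts t k1 k2 qn q0 (w b) (Fc d b P0 Q0) _ (trp d e N w s T P0 Q0 b F) (NN b) ht ht1
    hWb hk10 hk11 hk20 hk21 hq1 hq00 _ (Fc_diff _ _ _ _) (Fc_diff _ _ _ _) (Fc_diff _ _ _ _) _ _
    (hNN3 b) (hNNn b) _
  · rw [hq0, hk1]
    apply le_of_eq
    field_simp
  · intro u hu
    rw [Fc_add, add_sub_cancel_left]
    have h1 := Fc_size d (by omega) w hw b _ _ hdegP hdegQ (8 * 10 ^ 9 * e) (by positivity)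
      (fun z _ => hPSP z) (fun z _ => hPSQ z) u hu
    refine h1.trans ?_
    gcongr
  · intro u hu
    have h1 := trp_tail d hd e he0 N hN1 w hw s hs T P0 Q0 b F hFX u hu
    refine h1.trans ?_
    rw [hTe, ← hk2]
    calc 3 * 10 ^ 5 * (8 * 10 ^ 9 * e * (k2 / (24 * 10 ^ 5))) * w b ≤
          3 * 10 ^ 5 * (t * (k2 / (24 * 10 ^ 5))) * w b := by gcongr
      _ = k2 * t * w b / 8 := by ring
  · intro n hn
    have h1 := hFb b hb
    have h2 : ¬ (nr (trp d e N w s T P0 Q0 b F n) < 16 * k1 * (nr (Fc d b P0 Q0 n) + t * w b) ∨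
      ‖Jw (trp d e N w s T P0 Q0 b F) n‖ < 2 * k2 * t * w b *
      (nr (trp d e N w s T P0 Q0 b F n) + nr (deriv (trp d e N w s T P0 Q0 b F) n))) := by
      intro h
      exact h1 ⟨fun c _ _ => hFX c, n, hn, h⟩
    push Not at h2
    exact h2

end Pool.Agent.H73.ST
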