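import Pool.Agent.H73.ST.Fac
import Pool.Agent.H73.ST.Har

/-!
SHARP RATE (MP_8f2e1c_an), piece 1, lemma VAR: variation of one entire function on small discs.

Proof. `τ = t/16`. If `|f| < τ` on `|u| ≤ 13/5` there is nothing to prove. Otherwise `f u ∏ (16 - conj z u) =
g u ∏ 4 (u - z)`, `g = exp h`, `|h'| ≤ 2025 (1 + log (M/τ))`; so `f v = f u exp (h v - h u) ∏ x_z` with
`x_z - 1 = (16 - |z|²)(v - u)/((u - z)(16 - conj z v))`. If `δ ≤ t`: `|f'| ≤ M` on `|u| ≤ 3`.
-/

set_option autoImplicit false

open ComplexConjugate Metric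

namespace Pool.Agent.H73.ST

private theorem list_prod (a : ℝ) (ha : 0 ≤ a) (l : List ℂ) (hl : ∀ x ∈ l, ‖x - 1‖ ≤ a) :
    ‖l.prod - 1‖ ≤ Real.exp (a * l.length) - 1 := by
  induction l with
  | nil => simp
  | cons x l ih =>
    have h1 := hl x (by simp)
    have h2 := ih (fun y hy => hl y (by simp [hy]))
    rw [List.prod_cons, List.length_cons]
    push_cast
    have h3 : ‖l.prod‖ ≤ Real.exp (a * l.length) := by
      calc ‖l.prod‖ = ‖(l.prod - 1) + 1‖ := by ring_nf
        _ ≤ ‖l.prod - 1‖ + ‖(1 : ℂ)‖ := norm_add_le _ _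
        _ ≤ _ := by rw [norm_one]; linarith
    have h4 : x * l.prod - 1 = (x - 1) * l.prod + (l.prod - 1) := by ring
    have h5 : (1 + a) ≤ Real.exp a := by
      have := Real.add_one_le_exp a
      linarith
    have h6 : Real.exp (a * (l.length + 1)) = Real.exp a * Real.exp (a * l.length) := by
      rw [← Real.exp_add]
      ring_nf
    calc ‖x * l.prod - 1‖ ≤ ‖x - 1‖ * ‖l.prod‖ + ‖l.prod - 1‖ := by
          rw [h4, ← norm_mul]
          exact norm_add_le _ _
      _ ≤ a * Real.exp (a * l.length) + (Real.exp (a * l.length) - 1) := by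
          gcongr
      _ = (1 + a) * Real.exp (a * l.length) - 1 := by ring
      _ ≤ _ := by
          rw [h6]
          have := mul_le_mul_of_nonneg_right h5 (Real.exp_pos (a * l.length)).le
          linarith

private theorem prod_eq (f g h : ℂ → ℂ) (Z : List ℂ) (u v : ℂ)
    (hf : ∀ u, f u * (Z.map (fun z => 16 - conj z * u)).prod
        = g u * (Z.map (fun z => 4 * (u - z))).prod)
    (hgu : Complex.exp (h u) = g u) (hgv : Complex.exp (h v) = g v)
    (h1 : ∀ z ∈ Z, u ≠ z) (h2 : ∀ z ∈ Z, 16 - conj z * v ≠ 0) :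
    f v = f u * ((Z.map (fun z => (v - z) * (16 - conj z * u) /
      ((u - z) * (16 - conj z * v)))).prod * Complex.exp (h v - h u)) := by
  have key : (Z.map (fun z => (v - z) * (16 - conj z * u) / ((u - z) * (16 - conj z * v)))).prod *
      ((Z.map (fun z => 4 * (u - z))).prod * (Z.map (fun z => 16 - conj z * v)).prod) =
      (Z.map (fun z => 4 * (v - z))).prod * (Z.map (fun z => 16 - conj z * u)).prod := by
    clear hf
    induction Z with
    | nil => simp
    | cons z Z ih =>
      have ih' := ih (fun y hy => h1 y (by simp [hy])) (fun y hy => h2 y (by simp [hy]))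
      simp only [List.map_cons, List.prod_cons]
      have e1 : u - z ≠ 0 := sub_ne_zero.2 (h1 z (by simp))
      have e2 := h2 z (by simp)
      have e3 : (v - z) * (16 - conj z * u) / ((u - z) * (16 - conj z * v)) *
          ((4 * (u - z)) * (16 - conj z * v)) = (4 * (v - z)) * (16 - conj z * u) := by
        rw [div_mul_eq_mul_div, div_eq_iff (mul_ne_zero e1 e2)]
        ring
      calc _ = ((v - z) * (16 - conj z * u) / ((u - z) * (16 - conj z * v)) *
            ((4 * (u - z)) * (16 - conj z * v))) * ((Z.map (fun z => (v - z) *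
              (16 - conj z * u) / ((u - z) * (16 - conj z * v)))).prod *
            ((Z.map (fun z => 4 * (u - z))).prod * (Z.map (fun z => 16 - conj z * v)).prod)) := by
            ring
        _ = _ := by
            rw [e3, ih']
            ring
  have hB : (Z.map (fun z => 4 * (u - z))).prod ≠ 0 := by
    apply List.prod_ne_zero
    intro h0
    rw [List.mem_map] at h0
    obtain ⟨z, hz, hz0⟩ := h0
    have := (mul_eq_zero.1 hz0).resolve_left (by norm_num)
    exact h1 z hz (sub_eq_zero.1 this)
  have hA : (Z.map (fun z => 16 - conj z * v)).prod ≠ 0 := by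
    apply List.prod_ne_zero
    intro h0
    rw [List.mem_map] at h0
    obtain ⟨z, hz, hz0⟩ := h0
    exact h2 z hz hz0
  have hgu0 : g u ≠ 0 := by
    rw [← hgu]
    exact Complex.exp_ne_zero _
  have hE : Complex.exp (h v - h u) * g u = g v := by
    rw [← hgu, ← hgv, ← Complex.exp_add]
    ring_nf
  have hu := hf u
  have hv := hf v
  generalize (Z.map (fun z => (v - z) * (16 - conj z * u) /
    ((u - z) * (16 - conj z * v)))).prod = X at key ⊢
  generalize (Z.map (fun z => 4 * (u - z))).prod = Bu at *
  generalize (Z.map (fun z => 16 - conj z * v)).prod = Av at *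
  generalize (Z.map (fun z => 4 * (v - z))).prod = Bv at *
  generalize (Z.map (fun z => 16 - conj z * u)).prod = Au at *
  have hne : Bu * Av * g u ≠ 0 := mul_ne_zero (mul_ne_zero hB hA) hgu0
  apply mul_right_cancel₀ hne
  calc f v * (Bu * Av * g u) = (f v * Av) * (Bu * g u) := by ring
    _ = (g v * Bv) * (Bu * g u) := by rw [hv]
    _ = (g u * Bu) * (g v * Bv) := by ring
    _ = (f u * Au) * (g v * Bv) := by rw [hu]
    _ = f u * g v * (Bv * Au) := by ring
    _ = f u * (Complex.exp (h v - h u) * g u) * (X * (Bu * Av)) := by rw [hE, key]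
    _ = _ := by ring

/-- variation of an entire function on small discs -/
theorem var (M t : ℝ) (hM : 1 ≤ M) (ht : 0 < t) (ht1 : t ≤ 1) (f : ℂ → ℂ)
    (hf : Differentiable ℂ f) (hfM : ∀ u, ‖u‖ ≤ 4 → ‖f u‖ ≤ M) :
    ∃ Z : Finset ℂ, (Z.card : ℝ) ≤ 25 * (1 + Real.log (16 * M / t)) ∧
      ∀ u, ‖u‖ ≤ 5 / 2 → ∀ δ, 0 < δ → δ ≤ 1 → (δ ≤ t ∨ ∀ z ∈ Z, δ ≤ ‖u - z‖) →
        ∀ v, ‖v - u‖ ≤ δ / (10 ^ 5 * M * (1 + Real.log (16 * M / t))) →
          ‖f v - f u‖ ≤ (‖f u‖ + t) / 8 := by
  classical
  obtain ⟨L, hL⟩ : ∃ L : ℝ, L = 1 + Real.log (16 * M / t) := ⟨_, rfl⟩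
  have hL1 : 1 ≤ L := by
    have : 0 ≤ Real.log (16 * M / t) := by
      apply Real.log_nonneg
      rw [one_le_div ht]
      linarith
    linarith
  rw [← hL]
  have hML : 10 ^ 5 ≤ 10 ^ 5 * M * L := by nlinarith [mul_le_mul hM hL1 zero_le_one (by linarith)]
  have hρ : ∀ δ : ℝ, 0 < δ → δ / (10 ^ 5 * M * L) ≤ δ / 10 ^ 5 := by
    intro δ hδ
    exact div_le_div_of_nonneg_left hδ.le (by norm_num) hML
  by_cases hsmall : ∀ u, ‖u‖ ≤ 13 / 5 → ‖f u‖ < t / 16
  · refine ⟨∅, by simp; linarith, ?_⟩
    intro u hu δ hδ hδ1 _ v hv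
    have h1 := hv.trans (hρ δ hδ)
    have hv1 : ‖v‖ ≤ 13 / 5 := by
      calc ‖v‖ = ‖(v - u) + u‖ := by ring_nf
        _ ≤ ‖v - u‖ + ‖u‖ := norm_add_le _ _
        _ ≤ 13 / 5 := by linarith
    have h2 := hsmall u (by linarith)
    have h3 := hsmall v hv1
    have h4 := norm_sub_le (f v) (f u)
    linarith [norm_nonneg (f u)]
  · push Not at hsmall
    obtain ⟨u0, hu0, hu0t⟩ := hsmall
    have ht16 : 0 < t / 16 := by positivity
    obtain ⟨Z, g, hg, hZ3, hgz, hgM, hgu0, hlen, hfg⟩ :=
      fac f hf M (t / 16) hfM u0 (by linarith) ht16 hu0t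
    have hlog : Real.log (M / (t / 16)) = L - 1 := by
      rw [hL]
      have : M / (t / 16) = 16 * M / t := by field_simp
      rw [this]
      ring
    rw [hlog] at hlen
    obtain ⟨h, hh, hhe, hhd⟩ := har g hg.differentiableOn
      (fun u hu => hgz u (by rw [mem_ball_zero_iff] at hu; exact hu.le)) M (t / 16)
      (fun u hu => hgM u (by rw [mem_ball_zero_iff] at hu; linarith)) u0 hu0 ht16
      (hu0t.trans hgu0)
    rw [hlog] at hhd
    refine ⟨Z.toFinset, ?_, ?_⟩
    · have : (Z.toFinset.card : ℝ) ≤ Z.length := by exact_mod_cast List.toFinset_card_le Z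
      linarith
    intro u hu δ hδ hδ1 hor v hv
    have hv5 := hv.trans (hρ δ hδ)
    have hv1 : ‖v‖ ≤ 13 / 5 := by
      calc ‖v‖ = ‖(v - u) + u‖ := by ring_nf
        _ ≤ ‖v - u‖ + ‖u‖ := norm_add_le _ _
        _ ≤ 13 / 5 := by linarith
    rcases hor with hδt | hδZ
    · -- Lipschitz
      have hder : ∀ x ∈ ball (0 : ℂ) 3, ‖deriv f x‖ ≤ M := by
        intro x hx
        rw [mem_ball_zero_iff] at hx
        have := Complex.norm_deriv_le_of_forall_mem_sphere_norm_le one_pos (f := f) (c := x)
          (C := M) hf.diffContOnCl (by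
            intro y hy
            apply hfM
            rw [mem_sphere, dist_eq_norm] at hy
            calc ‖y‖ = ‖(y - x) + x‖ := by ring_nf
              _ ≤ ‖y - x‖ + ‖x‖ := norm_add_le _ _
              _ ≤ 4 := by linarith)
        simpa using this
      have h1 := (convex_ball (0 : ℂ) 3).norm_image_sub_le_of_norm_deriv_le
        (fun x _ => hf x) hder (by rw [mem_ball_zero_iff]; linarith : u ∈ ball (0 : ℂ) 3)
        (by rw [mem_ball_zero_iff]; linarith : v ∈ ball (0 : ℂ) 3)
      have h2 : M * ‖v - u‖ ≤ δ / 10 ^ 5 := by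
        have h3 : M * ‖v - u‖ ≤ M * (δ / (10 ^ 5 * M * L)) :=
          mul_le_mul_of_nonneg_left hv (by linarith)
        have h4 : M * (δ / (10 ^ 5 * M * L)) = δ / 10 ^ 5 / L := by
          have : M ≠ 0 := by positivity
          have : L ≠ 0 := by positivity
          field_simp
        rw [h4] at h3
        exact h3.trans (div_le_self (by positivity) hL1)
      linarith [norm_nonneg (f u)]
    · have huz : ∀ z ∈ Z, δ ≤ ‖u - z‖ := fun z hz => hδZ z (by simpa using hz)
      have hden : ∀ z ∈ Z, 8 ≤ ‖16 - conj z * v‖ := by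
        intro z hz
        have h1 : ‖conj z * v‖ ≤ 3 * (13 / 5) := by
          rw [norm_mul, Complex.norm_conj]
          exact mul_le_mul (hZ3 z hz) hv1 (norm_nonneg _) (by norm_num)
        have h2 := norm_sub_norm_le (16 : ℂ) (conj z * v)
        have h3 : ‖(16 : ℂ)‖ = 16 := by norm_num
        linarith
      have hub : u ∈ ball (0 : ℂ) 3 := by rw [mem_ball_zero_iff]; linarith
      have hvb : v ∈ ball (0 : ℂ) 3 := by rw [mem_ball_zero_iff]; linarith
      have hfv := prod_eq f g h Z u v hfg (hhe u hub) (hhe v hvb)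
        (fun z hz h0 => by
          have := huz z hz
          rw [h0, sub_self, norm_zero] at this
          linarith)
        (fun z hz h0 => by
          have := hden z hz
          rw [h0, norm_zero] at this
          linarith)
      have hP := list_prod (2 / (10 ^ 5 * L)) (by positivity)
        (Z.map (fun z => (v - z) * (16 - conj z * u) / ((u - z) * (16 - conj z * v)))) (by
          intro x hx
          rw [List.mem_map] at hx
          obtain ⟨z, hz, rfl⟩ := hx
          have e1 := huz z hz
          have e2 := hden z hz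
          have e3 : u - z ≠ 0 := by
            rw [← norm_pos_iff]
            linarith
          have e4 : 16 - conj z * v ≠ 0 := by
            rw [← norm_pos_iff]
            linarith
          have e5 : (v - z) * (16 - conj z * u) / ((u - z) * (16 - conj z * v)) - 1 =
              (16 - z * conj z) * (v - u) / ((u - z) * (16 - conj z * v)) := by
            rw [div_sub_one (mul_ne_zero e3 e4)]
            congr 1
            ring
          rw [e5, norm_div, norm_mul, norm_mul (u - z)]
          have e6 : ‖16 - z * conj z‖ ≤ 16 := by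
            rw [Complex.mul_conj, Complex.normSq_eq_norm_sq]
            have h9 : ‖z‖ ^ 2 ≤ 9 := by nlinarith [norm_nonneg z, hZ3 z hz]
            have h10 : (16 : ℂ) - ((‖z‖ ^ 2 : ℝ) : ℂ) = ((16 - ‖z‖ ^ 2 : ℝ) : ℂ) := by
              push_cast
              ring
            rw [h10, Complex.norm_real, Real.norm_of_nonneg (by linarith)]
            nlinarith [sq_nonneg ‖z‖]
          have e7 : ‖v - u‖ ≤ δ / (10 ^ 5 * L) := by
            refine hv.trans ?_
            apply div_le_div_of_nonneg_left hδ.le (by positivity)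
            nlinarith
          rw [div_le_iff₀ (mul_pos (by linarith) (by linarith))]
          calc ‖16 - z * conj z‖ * ‖v - u‖ ≤ 16 * (δ / (10 ^ 5 * L)) := by gcongr
            _ = 2 / (10 ^ 5 * L) * (δ * 8) := by ring
            _ ≤ 2 / (10 ^ 5 * L) * (‖u - z‖ * ‖16 - conj z * v‖) := by gcongr)
      rw [List.length_map] at hP
      have hdh : ‖h v - h u‖ ≤ 2025 / 10 ^ 5 := by
        have h1 := (convex_closedBall (0 : ℂ) (13 / 5)).norm_image_sub_le_of_norm_deriv_le
          (f := h) (C := 2025 * L) (x := u) (y := v)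
          (fun x hx => by
            rw [mem_closedBall_zero_iff] at hx
            exact (hh x (by rw [mem_ball_zero_iff]; linarith)).differentiableAt
              (isOpen_ball.mem_nhds (by rw [mem_ball_zero_iff]; linarith)))
          (fun x hx => by
            rw [mem_closedBall_zero_iff] at hx
            have := hhd x hx
            linarith)
          (by rw [mem_closedBall_zero_iff]; linarith) (by rw [mem_closedBall_zero_iff]; linarith)
        refine h1.trans ?_
        have h2 : ‖v - u‖ ≤ 1 / (10 ^ 5 * L) := by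
          refine hv.trans ?_
          apply (div_le_div_of_nonneg_left hδ.le (by positivity)
            (by nlinarith : 10 ^ 5 * L ≤ 10 ^ 5 * M * L)).trans
          gcongr
        calc 2025 * L * ‖v - u‖ ≤ 2025 * L * (1 / (10 ^ 5 * L)) := by gcongr
          _ = 2025 / 10 ^ 5 := by field_simp
      have hE := Complex.norm_exp_sub_one_le (x := h v - h u) (by linarith)
      obtain ⟨X, hX⟩ : ∃ X, X = (Z.map (fun z => (v - z) * (16 - conj z * u) /
        ((u - z) * (16 - conj z * v)))).prod := ⟨_, rfl⟩
      rw [← hX] at hfv hP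
      have hPX : ‖X - 1‖ ≤ 1 / 1000 := by
        refine hP.trans ?_
        have h1 : 2 / (10 ^ 5 * L) * (Z.length : ℝ) ≤ 1 / 2000 := by
          calc 2 / (10 ^ 5 * L) * (Z.length : ℝ) ≤ 2 / (10 ^ 5 * L) * (25 * (L - 1)) := by gcongr
            _ ≤ 2 / (10 ^ 5 * L) * (25 * L) := by
                gcongr
                linarith
            _ = 1 / 2000 := by field_simp; norm_num
        have h2 := Real.exp_le_exp.2 h1
        have h3 : Real.exp (1 / 2000) ≤ 1 + 1 / 1000 := by
          have := Real.exp_bound_div_one_sub_of_interval (by norm_num : (0 : ℝ) ≤ 1 / 2000)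
            (by norm_num)
          refine this.trans ?_
          norm_num
        linarith
      have hfin : f v - f u = f u * ((X - 1) * Complex.exp (h v - h u) +
          (Complex.exp (h v - h u) - 1)) := by
        rw [hfv]
        ring
      have hEn : ‖Complex.exp (h v - h u)‖ ≤ 2 := by
        calc ‖Complex.exp (h v - h u)‖ = ‖(Complex.exp (h v - h u) - 1) + 1‖ := by ring_nf
          _ ≤ ‖Complex.exp (h v - h u) - 1‖ + ‖(1 : ℂ)‖ := norm_add_le _ _
          _ ≤ 2 := by rw [norm_one]; linarith
      rw [hfin, norm_mul]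
      have h8 : ‖(X - 1) * Complex.exp (h v - h u) + (Complex.exp (h v - h u) - 1)‖ ≤ 1 / 8 := by
        refine (norm_add_le _ _).trans ?_
        rw [norm_mul]
        have := mul_le_mul hPX hEn (norm_nonneg _) (by norm_num)
        linarith
      have := mul_le_mul_of_nonneg_left h8 (norm_nonneg (f u))
      linarith

end Pool.Agent.H73.ST
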